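import Pool.Agent.G3.E.Defs
import Pool.Agent.G4.A.Fin
import Pool.Agent.G4.A.Idn

/-!
# G4 E Cnt: the number of curves is constant on `b + ℂ ν + ℂ a`, any dimension

`bc_ncard`: for `f ≠ g` in `Hc b` there is `z₁` with `f z₁ ≠ g z₁` and `G (0, z₁) ≠ 0` for the lifts `G` of `Ψ_f`, `Ψ_g` at `(0, z₁)` (choose a point where `f ≠ g`, then `z₁` near it: the zeros of `G (0, ·)` are isolated and
`{f ≠ g}` is open), so `Ψ_f ζ z₁ ≠ Ψ_g ζ z₁` for `ζ` near `0`; finitely many pairs (`hc_finite`); `f ↦ Ψ_f ζ` is injective into the finite set `Hc (b + ζ ν)`.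
`ncard_shift`: the number of curves over `b + z a` does not depend on `z`.
`ncard_line`: with `ncard_usc` the number of curves over `b + ζ ν` is a locally constant function of `ζ ∈ ℂ`.
-/

set_option autoImplicit false

open Topology Filter Metric

namespace Pool.Agent.G4.E

open Pool.Agent.H36.BP (EN fs wd)
open Pool.Agent.H14.PP (IsCone CurveAt Tan)
open Pool.Agent.H62.EF (MN pr)
open Pool.Agent.AD (Vd Chart Charts IsGerm)
open Pool.Agent.TG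
open Pool.Agent.G3.A (Ba Hc Dec Sepa Tht Frm NL Lm CRL Tb ToE CE Sht)
open Pool.Agent.G3.E (Hol GD MG BC)
open Pool.Agent.G4.A

variable {N k : ℕ} {X : Set (EN N)} {Λ : AddSubgroup (Vd (k + 1))} {u : EN N → Vd (k + 1)} {D B Bad : Set (Vd (k + 1))} {a ν : Vd (k + 1)}
  {Γ : AddSubgroup (Vd (k + 1))} {J rW : ℕ} {W : Fin rW → Vd (k + 1) →L[ℂ] ℂ} {α : Fin J → VForm X Λ u} {c₀ C₀ ρ δ : ℝ}

theorem pair_ne (hX : IsCone X) {b : Vd (k + 1)} {f g : ℂ → MN N} (hf : f ∈ Hc X Λ u a b) (hg : g ∈ Hc X Λ u a b) (hfg : f ≠ g)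
    {Ψ Φ : ℂ → ℂ → MN N} (hΨ0 : ∀ z, Ψ 0 z = f z) (hΦ0 : ∀ z, Φ 0 z = g z)
    (hΨ : ∀ z : ℂ, ∃ G : ℂ × ℂ → EN N, AnalyticAt ℂ G (0, z) ∧ (¬ ∀ᶠ w in 𝓝 z, G (0, w) = 0) ∧ ∀ᶠ p in 𝓝 ((0 : ℂ), z), G p ≠ 0 → Ψ p.1 p.2 = pr (G p))
    (hΦ : ∀ z : ℂ, ∃ G : ℂ × ℂ → EN N, AnalyticAt ℂ G (0, z) ∧ (¬ ∀ᶠ w in 𝓝 z, G (0, w) = 0) ∧ ∀ᶠ p in 𝓝 ((0 : ℂ), z), G p ≠ 0 → Φ p.1 p.2 = pr (G p)) :
    ∀ᶠ ζ in 𝓝 (0 : ℂ), Ψ ζ ≠ Φ ζ := by
  obtain ⟨z₀, hz₀⟩ : ∃ z, f z ≠ g z := by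
    by_contra h
    push Not at h
    exact hfg (funext h)
  have hopen : ∀ᶠ z in 𝓝 z₀, f z ≠ g z :=
    ((hc_cont hX hf).continuousAt.prodMk (hc_cont hX hg).continuousAt).eventually
      (isClosed_diagonal.isOpen_compl.mem_nhds (by simpa using hz₀)) |>.mono fun z hz => by simpa using hz
  obtain ⟨F, hFa, hF0, hFe⟩ := hΨ z₀
  obtain ⟨G, hGa, hG0, hGe⟩ := hΦ z₀
  have hcont : ContinuousAt (fun w : ℂ => ((0 : ℂ), w)) z₀ := by fun_prop
  have hsl : ∀ {H : ℂ × ℂ → EN N}, AnalyticAt ℂ H (0, z₀) → (¬ ∀ᶠ w in 𝓝 z₀, H (0, w) = 0) → ∀ᶠ w in 𝓝[≠] z₀, H (0, w) ≠ 0 := by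
    intro H hHa hH0
    have h1 : AnalyticAt ℂ (fun w : ℂ => H (0, w)) z₀ := by
      have h2 : AnalyticAt ℂ (fun w : ℂ => ((0 : ℂ), w)) z₀ := analyticAt_const.prod analyticAt_id
      exact AnalyticAt.fun_comp (f := fun w : ℂ => ((0 : ℂ), w)) (g := H) hHa h2
    rcases h1.eventually_eq_zero_or_eventually_ne_zero with h3 | h3
    · exact absurd h3 hH0
    · exact h3
  have hsub : 𝓝[≠] z₀ ≤ 𝓝 z₀ := nhdsWithin_le_nhds
  have hF1 := hcont.eventually hFe.eventually_nhds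
  have hG1 := hcont.eventually hGe.eventually_nhds
  have hF2 := hcont.eventually hFa.eventually_analyticAt
  have hG2 := hcont.eventually hGa.eventually_analyticAt
  have hall := (hsl hFa hF0).and ((hsl hGa hG0).and ((hopen.filter_mono hsub).and ((hF1.filter_mono hsub).and ((hG1.filter_mono hsub).and
    ((hF2.filter_mono hsub).and (hG2.filter_mono hsub))))))
  obtain ⟨z₁, h1, h2, h3, h4, h5, h6, h7⟩ := hall.exists
  have hlim : ∀ {H : ℂ × ℂ → EN N} {Θ : ℂ → ℂ → MN N}, H (0, z₁) ≠ 0 → (∀ᶠ p in 𝓝 ((0 : ℂ), z₁), H p ≠ 0 → Θ p.1 p.2 = pr (H p)) →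
      AnalyticAt ℂ H (0, z₁) → Tendsto (fun ζ : ℂ => Θ ζ z₁) (𝓝 0) (𝓝 (Θ 0 z₁)) := by
    intro H Θ hH he ha
    have hc : ContinuousAt (fun ζ : ℂ => (ζ, z₁)) 0 := by fun_prop
    have e1 : ∀ᶠ ζ in 𝓝 (0 : ℂ), Θ ζ z₁ = pr (H (ζ, z₁)) := by
      have hne : ∀ᶠ p in 𝓝 ((0 : ℂ), z₁), H p ≠ 0 := ha.continuousAt.eventually_ne hH
      exact (hc.eventually (he.and hne)).mono fun ζ hζ => hζ.1 hζ.2
    have e2 : ContinuousAt (fun ζ : ℂ => pr (H (ζ, z₁))) 0 := by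
      have e3 : ContinuousAt (fun ζ : ℂ => H (ζ, z₁)) 0 :=
        ContinuousAt.comp (f := fun ζ : ℂ => (ζ, z₁)) (g := H) ha.continuousAt hc
      exact ContinuousAt.comp (f := fun ζ : ℂ => H (ζ, z₁)) (g := pr) (Pool.Agent.H62.EF.continuousAt_pr hH) e3
    have e4 : Θ 0 z₁ = pr (H (0, z₁)) := e1.self_of_nhds
    rw [e4]
    exact (tendsto_congr' e1).2 e2.tendsto
  have hA := hlim h1 h4 h6
  have hB := hlim h2 h5 h7
  have hne : Ψ 0 z₁ ≠ Φ 0 z₁ := by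
    rw [hΨ0, hΦ0]
    exact h3
  have hev := (hA.prodMk_nhds hB).eventually (isClosed_diagonal.isOpen_compl.mem_nhds (by simpa using hne))
  refine hev.mono fun ζ hζ h => ?_
  apply hζ
  rw [Set.mem_diagonal_iff]
  exact congrFun h z₁

theorem bc_ncard (S : DA X Λ u D B Bad a Γ W α c₀ C₀ ρ δ) {b : Vd (k + 1)} (hb : BC X Λ u a ν b) : ∀ᶠ ζ in 𝓝 (0 : ℂ), (Hc X Λ u a b).ncard ≤ (Hc X Λ u a (b + ζ • ν)).ncard := by
  obtain ⟨ε, hε, hΨ⟩ := hb
  choose! Ψ h0 hH hG using hΨ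
  have hfin := hc_finite S b
  have him : ∀ᶠ ζ in 𝓝 (0 : ℂ), |ζ.im| < ε := by
    have hc : Continuous fun ζ : ℂ => |ζ.im| := Complex.continuous_im.abs
    exact hc.continuousAt.eventually_lt continuousAt_const (by simpa using hε)
  have h00 : |(0 : ℂ).im| < ε := by simpa using hε
  have hp : ∀ p ∈ (Hc X Λ u a b) ×ˢ (Hc X Λ u a b), ∀ᶠ ζ in 𝓝 (0 : ℂ), p.1 ≠ p.2 → Ψ p.1 ζ ≠ Ψ p.2 ζ := by
    rintro ⟨f, g⟩ ⟨hf, hg⟩
    by_cases hfg : f = g
    · exact Filter.Eventually.of_forall fun ζ h => absurd hfg h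
    · exact (pair_ne S.geo.cone hf hg hfg (h0 f hf) (h0 g hg) (fun z => hG f hf 0 z h00) (fun z => hG g hg 0 z h00)).mono fun ζ h _ => h
  have hall := (Filter.eventually_all_finite (hfin.prod hfin)).2 hp
  filter_upwards [him, hall] with ζ h1 h2
  refine Set.ncard_le_ncard_of_injOn (fun f => Ψ f ζ) (fun f hf => hH f hf ζ h1) ?_ (hc_finite S _)
  intro f hf g hg hfg
  by_contra hne
  exact h2 (f, g) ⟨hf, hg⟩ hne hfg

theorem ncard_shift (b : Vd (k + 1)) (z : ℂ) : (Hc X Λ u a (b + z • a)).ncard = (Hc X Λ u a b).ncard := by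
  have hinj : Function.Injective (fun (f : ℂ → MN N) (w : ℂ) => f (z + w)) := by
    intro f g h
    funext w
    have := congrFun h (w - z)
    simpa using this
  have himg : Hc X Λ u a (b + z • a) = (fun (f : ℂ → MN N) (w : ℂ) => f (z + w)) '' Hc X Λ u a b := by
    ext g
    constructor
    · intro hg
      have h1 := hc_add hg (-z)
      have h2 : b + z • a + (-z) • a = b := by
        rw [neg_smul, add_neg_cancel_right]
      rw [h2] at h1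
      refine ⟨_, h1, ?_⟩
      funext w
      simp
    · rintro ⟨f, hf, rfl⟩
      exact hc_add hf z
  rw [himg, Set.ncard_image_of_injective _ hinj]

theorem ncard_line (S : DA X Λ u D B Bad a Γ W α c₀ C₀ ρ δ) (hBC : ∀ b, BC X Λ u a ν b) (b : Vd (k + 1)) (ζ : ℂ) :
    (Hc X Λ u a (b + ζ • ν)).ncard = (Hc X Λ u a b).ncard := by
  have hloc : ∀ c : ℂ, ∀ᶠ x in 𝓝 c, (Hc X Λ u a (b + x • ν)).ncard = (Hc X Λ u a (b + c • ν)).ncard := by
    intro c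
    have hc1 : Tendsto (fun x : ℂ => b + x • ν) (𝓝 c) (𝓝 (b + c • ν)) := by
      have h : Continuous fun x : ℂ => b + x • ν := by fun_prop
      exact h.tendsto c
    have h1 := hc1.eventually (ncard_usc S (b + c • ν))
    have hc2 : Tendsto (fun x : ℂ => x - c) (𝓝 c) (𝓝 0) := by
      have h : Continuous fun x : ℂ => x - c := by fun_prop
      simpa using h.tendsto c
    have h2 := hc2.eventually (bc_ncard S (hBC (b + c • ν)))
    filter_upwards [h1, h2] with x h3 h4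
    have h5 : b + c • ν + (x - c) • ν = b + x • ν := by
      rw [add_assoc, ← add_smul, add_sub_cancel]
    rw [h5] at h4
    exact le_antisymm h3 h4
  have hlc : IsLocallyConstant fun x : ℂ => (Hc X Λ u a (b + x • ν)).ncard :=
    (IsLocallyConstant.iff_eventually_eq _).2 hloc
  have h := hlc.apply_eq_of_isPreconnected isPreconnected_univ (Set.mem_univ ζ) (Set.mem_univ (0 : ℂ))
  simpa using h

end Pool.Agent.G4.E
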