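import Pool.Agent.G4.E.EDefs

/-!
# G4 E Dir: directions

`exists_dir`: in every complex subspace `S ≠ 0` there is a direction `a'` whose real closure contains `S`.
Proof.  If `ToE Λ a' E` then `E` is spanned over `ℝ` by a finite subset `t` of `Λ` (`E / (Λ ∩ E)` is compact: `Λ ∩ E` spans `E`).  For the countably many finite `t ⊆ Λ` with `S ⊄ span_ℝ t` the set `S ∩ span_ℝ t` is a proper real
subspace of `S`; countably many proper subspaces do not cover `S` (Baire).
`toE_le`: the real closure `E` of `ℂ a` is contained in every real closure `E'` which contains `ℂ a`: a vector `v ∈ E` is a limit of vectors `l + s` with `l ∈ Λ`, `s ∈ E'` bounded, so `v - l ∈ E'` for some `l ∈ Λ` (`Λ` is discrete);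
for two of the uncountably many multiples `t v` the vector `l` is the same.
`toE_top_or`: simple torus: `E = ⊤` or there is `ν ∈ E` with `i ν ∉ E` (otherwise `E` is a complex subspace, spanned by `Λ ∩ E`: `Simp`).
-/

set_option autoImplicit false

open Topology Filter Metric

namespace Pool.Agent.G4.E

open Pool.Agent.AD (Vd Chart Charts IsGerm)
open Pool.Agent.TG
open Pool.Agent.G3.A (ToE)

variable {k : ℕ} {Λ : AddSubgroup (Vd (k + 1))}

private theorem Dir_countable (h : Lat Λ) : Countable Λ := by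
  obtain ⟨δ, hδ, h1⟩ := h.disc
  have hdisc : DiscreteTopology Λ := by
    refine DiscreteTopology.of_forall_le_dist hδ ?_
    intro x y hxy
    by_contra hlt
    push Not at hlt
    apply hxy
    apply Subtype.ext
    have h2 := h1 ((x : Vd (k + 1)) - y) (Λ.sub_mem x.2 y.2) (by
      rw [← dist_eq_norm]; exact hlt)
    exact sub_eq_zero.1 h2
  exact TopologicalSpace.separableSpace_iff_countable.1 inferInstance

/-- a cocompact set of vectors spans -/
private theorem Dir_span {E : Submodule ℝ (Vd (k + 1))} {R : ℝ} (h : ∀ v ∈ E, ∃ l ∈ Λ, l ∈ E ∧ ‖v - l‖ ≤ R) :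
    Submodule.span ℝ ((Λ : Set (Vd (k + 1))) ∩ E) = E := by
  refine le_antisymm ?_ ?_
  · rw [Submodule.span_le]
    rintro l ⟨-, hl⟩
    exact hl
  · intro v hv
    by_contra hcon
    obtain ⟨φ, hφv, hφ⟩ := Submodule.exists_le_ker_of_notMem (K := ℝ) hcon
    set φ' : Vd (k + 1) →L[ℝ] ℝ := LinearMap.toContinuousLinearMap φ with hφ'
    have hR : 0 ≤ R := by
      obtain ⟨l, -, -, hl⟩ := h 0 E.zero_mem
      exact (norm_nonneg _).trans hl
    set t : ℝ := (‖φ'‖ * R + 1) / φ v with ht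
    have htv : t • v ∈ E := E.smul_mem t hv
    obtain ⟨l, hl, hlV, hlR⟩ := h _ htv
    have h1 : φ l = 0 := hφ (Submodule.subset_span ⟨hl, hlV⟩)
    have h2 : φ' (t • v - l) = ‖φ'‖ * R + 1 := by
      have h3 : φ' (t • v - l) = t * φ v - φ l := by
        show φ (t • v - l) = _
        rw [map_sub, map_smul, smul_eq_mul]
      rw [h3, h1, sub_zero, ht, div_mul_cancel₀ _ hφv]
    have h3 := φ'.le_opNorm (t • v - l)
    rw [h2, Real.norm_of_nonneg (by positivity)] at h3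
    have h4 : ‖φ'‖ * ‖t • v - l‖ ≤ ‖φ'‖ * R := mul_le_mul_of_nonneg_left hlR (norm_nonneg _)
    linarith

/-- a real closure is spanned by finitely many vectors of the lattice -/
private theorem Dir_fin {a : Vd (k + 1)} {E : Submodule ℝ (Vd (k + 1))} (hE : ToE Λ a E) : ∃ t : Finset Λ, E = Submodule.span ℝ ((fun l : Λ => (l : Vd (k + 1))) '' (t : Set Λ)) := by
  classical
  obtain ⟨R, -, hR⟩ := hE.cpt
  have h1 := Dir_span hR
  obtain ⟨s, hs, h2⟩ := (Submodule.fg_span_iff_fg_span_finset_subset (R := ℝ) ((Λ : Set (Vd (k + 1))) ∩ E)).1 (IsNoetherian.noetherian _)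
  refine ⟨s.subtype (fun x => x ∈ Λ), ?_⟩
  have h3 : (fun l : Λ => (l : Vd (k + 1))) '' ((s.subtype (fun x => x ∈ Λ) : Finset Λ) : Set Λ) = (s : Set (Vd (k + 1))) := by
    ext x
    simp only [Set.mem_image, Finset.mem_coe, Finset.mem_subtype]
    constructor
    · rintro ⟨l, hl, rfl⟩
      exact hl
    · intro hx
      exact ⟨⟨x, (hs hx).1⟩, hx, rfl⟩
  rw [h3, ← h2, h1]

theorem exists_dir (hΛ : Lat Λ) (S : Submodule ℂ (Vd (k + 1))) (hS : S ≠ ⊥) : ∃ a' ∈ S, ‖a'‖ = 1 ∧ ∀ E, ToE Λ a' E → ∀ v ∈ S, v ∈ E := by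
  classical
  have hc : Countable Λ := Dir_countable hΛ
  set SR : Submodule ℝ (Vd (k + 1)) := S.restrictScalars ℝ with hSR
  set sp : Finset Λ → Submodule ℝ (Vd (k + 1)) := fun t => Submodule.span ℝ ((fun l : Λ => (l : Vd (k + 1))) '' (t : Set Λ)) with hsp
  -- a vector outside all proper subspaces
  obtain ⟨x, hx⟩ : ∃ x : SR, ∀ t : Finset Λ, (x : Vd (k + 1)) ∈ sp t → ∀ v ∈ S, v ∈ sp t := by
    by_contra hcon
    push Not at hcon
    have hU : ⋃ t : {t : Finset Λ // ∃ v ∈ S, v ∉ sp t}, (((sp t.1).comap SR.subtype : Submodule ℝ SR) : Set SR) = Set.univ := by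
      rw [Set.eq_univ_iff_forall]
      intro x
      obtain ⟨t, ht, v, hv, hvt⟩ := hcon x
      exact Set.mem_iUnion.2 ⟨⟨t, v, hv, hvt⟩, ht⟩
    obtain ⟨⟨t, v, hv, hvt⟩, hi⟩ := nonempty_interior_of_iUnion_of_closed (fun t => Submodule.closed_of_finiteDimensional _) hU
    have h1 := Submodule.eq_top_of_nonempty_interior' _ hi
    have h2 : (⟨v, hv⟩ : SR) ∈ (sp t).comap SR.subtype := by
      rw [h1]
      exact Submodule.mem_top
    exact hvt h2
  have hx0 : (x : Vd (k + 1)) ≠ 0 := by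
    intro h0
    apply hS
    rw [Submodule.eq_bot_iff]
    intro v hv
    have h1 := hx ∅ (by rw [h0]; exact Submodule.zero_mem _) v hv
    rw [hsp] at h1
    simpa using h1
  have hn : 0 < ‖(x : Vd (k + 1))‖ := norm_pos_iff.2 hx0
  refine ⟨(‖(x : Vd (k + 1))‖⁻¹ : ℝ) • (x : Vd (k + 1)), SR.smul_mem _ x.2, ?_, ?_⟩
  · rw [norm_smul, norm_inv, norm_norm, inv_mul_cancel₀ hn.ne']
  · intro E hE v hv
    obtain ⟨t, ht⟩ := Dir_fin hE
    have h1 : (‖(x : Vd (k + 1))‖⁻¹ : ℝ) • (x : Vd (k + 1)) ∈ E := by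
      have h2 := hE.mem 1
      rwa [one_smul] at h2
    have h2 : (x : Vd (k + 1)) ∈ E := by
      have h3 := E.smul_mem ‖(x : Vd (k + 1))‖ h1
      rwa [smul_smul, mul_inv_cancel₀ hn.ne', one_smul] at h3
    rw [ht] at h2 ⊢
    exact hx t h2 v hv

/-- `E` is contained in `Λ + E'` -/
private theorem Dir_mod (hΛ : Lat Λ) {a a' : Vd (k + 1)} {E E' : Submodule ℝ (Vd (k + 1))} (hE : ToE Λ a E) (hE' : ToE Λ a' E') (h : ∀ z : ℂ, z • a ∈ E') {v : Vd (k + 1)} (hv : v ∈ E) :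
    ∃ l ∈ Λ, v - l ∈ E' := by
  obtain ⟨δ, hδ, hdisc⟩ := hΛ.disc
  obtain ⟨R, hR, hcpt⟩ := hE'.cpt
  have h1 : ∀ n : ℕ, ∃ l ∈ Λ, ∃ s ∈ E', ‖s‖ ≤ R ∧ ‖v - l - s‖ ≤ 1 / ((n : ℝ) + 1) := by
    intro n
    obtain ⟨l, hl, -, z, hz⟩ := hE.dns v hv (1 / ((n : ℝ) + 1)) (by positivity)
    obtain ⟨l', hl', hlE, hl'R⟩ := hcpt _ (h z)
    refine ⟨l + l', Λ.add_mem hl hl', z • a - l', E'.sub_mem (h z) hlE, hl'R, ?_⟩
    have e : v - (l + l') - (z • a - l') = v - (l + z • a) := by abel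
    rw [e]
    exact hz
  choose l hl s hs hsR hls using h1
  have hbd : ∀ n, l n ∈ closedBall (0 : Vd (k + 1)) (‖v‖ + R + 1) := by
    intro n
    rw [mem_closedBall_zero_iff]
    have h2 : l n = v - s n - (v - l n - s n) := by abel
    have h3 : (1 : ℝ) / ((n : ℝ) + 1) ≤ 1 := by
      rw [div_le_one (by positivity)]
      have : (0 : ℝ) ≤ n := Nat.cast_nonneg n
      linarith
    rw [h2]
    refine (norm_sub_le _ _).trans (add_le_add ((norm_sub_le _ _).trans (add_le_add le_rfl (hsR n))) ((hls n).trans h3))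
  obtain ⟨w, -, φ, hφ, hlim⟩ := (isCompact_closedBall (0 : Vd (k + 1)) (‖v‖ + R + 1)).tendsto_subseq hbd
  obtain ⟨n₀, hn₀⟩ := eventually_atTop.1 (hlim.eventually (ball_mem_nhds w (half_pos hδ)))
  have hconst : ∀ n ≥ n₀, l (φ n) = l (φ n₀) := by
    intro n hn
    have h2 : dist (l (φ n)) w < δ / 2 := hn₀ n hn
    have h3 : dist (l (φ n₀)) w < δ / 2 := hn₀ n₀ le_rfl
    have h4 : ‖l (φ n) - l (φ n₀)‖ < δ := by
      rw [← dist_eq_norm]
      have h5 := dist_triangle_right (l (φ n)) (l (φ n₀)) w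
      linarith
    exact sub_eq_zero.1 (hdisc _ (Λ.sub_mem (hl _) (hl _)) h4)
  refine ⟨l (φ n₀), hl _, ?_⟩
  have hcl : IsClosed (E' : Set (Vd (k + 1))) := Submodule.closed_of_finiteDimensional E'
  have hst : Tendsto (fun n => s (φ n)) atTop (𝓝 (v - l (φ n₀))) := by
    have h2 : Tendsto (fun n => (1 : ℝ) / (((φ n : ℕ) : ℝ) + 1)) atTop (𝓝 0) := (tendsto_one_div_add_atTop_nhds_zero_nat (𝕜 := ℝ)).comp hφ.tendsto_atTop
    have h3 : Tendsto (fun n => v - l (φ n) - s (φ n)) atTop (𝓝 0) := squeeze_zero_norm (fun n => hls _) h2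
    have h4 : Tendsto (fun n => v - l (φ n₀) - (v - l (φ n) - s (φ n))) atTop (𝓝 (v - l (φ n₀) - 0)) := tendsto_const_nhds.sub h3
    rw [sub_zero] at h4
    refine h4.congr' ?_
    filter_upwards [eventually_ge_atTop n₀] with n hn
    rw [hconst n hn]
    abel
  exact hcl.mem_of_tendsto hst (Eventually.of_forall fun n => hs _)

theorem toE_le (hΛ : Lat Λ) {a a' : Vd (k + 1)} {E E' : Submodule ℝ (Vd (k + 1))} (hE : ToE Λ a E) (hE' : ToE Λ a' E') (h : ∀ z : ℂ, z • a ∈ E') : E ≤ E' := by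
  intro v hv
  have h1 : ∀ t : ℝ, ∃ l : Λ, t • v - l ∈ E' := fun t => by
    obtain ⟨l, hl, h2⟩ := Dir_mod hΛ hE hE' h (E.smul_mem t hv)
    exact ⟨⟨l, hl⟩, h2⟩
  choose f hf using h1
  have hc : Countable Λ := Dir_countable hΛ
  have hni : ¬ Function.Injective f := fun hi => not_countable (α := ℝ) hi.countable
  unfold Function.Injective at hni
  push Not at hni
  obtain ⟨t, t', htt, hne⟩ := hni
  have h2 := E'.sub_mem (hf t) (hf t')
  rw [htt, sub_sub_sub_cancel_right, ← sub_smul] at h2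
  have h3 := E'.smul_mem (t - t')⁻¹ h2
  rwa [smul_smul, inv_mul_cancel₀ (sub_ne_zero.2 hne), one_smul] at h3

theorem toE_top_or (hΛ : Lat Λ) (hs : Simp Λ) {a : Vd (k + 1)} (ha : a ≠ 0) {E : Submodule ℝ (Vd (k + 1))} (hE : ToE Λ a E) : E = ⊤ ∨ ∃ ν ∈ E, Complex.I • ν ∉ E := by
  have _ := hΛ
  by_cases hI : ∃ ν ∈ E, Complex.I • ν ∉ E
  · exact Or.inr hI
  refine Or.inl ?_
  push Not at hI
  obtain ⟨V, hV⟩ : ∃ V : Submodule ℂ (Vd (k + 1)), ∀ v, v ∈ V ↔ v ∈ E := by
    refine ⟨{ carrier := {v | v ∈ E}, add_mem' := fun hv hw => E.add_mem hv hw, zero_mem' := E.zero_mem, smul_mem' := fun c v hv => ?_ }, fun v => Iff.rfl⟩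
    have h1 : c • v = c.re • v + c.im • (Complex.I • v) := by
      have h2 : (c.im : ℝ) • (Complex.I • v) = ((c.im : ℂ) * Complex.I) • v := by
        rw [← smul_smul, Complex.coe_smul]
      rw [h2, ← Complex.coe_smul, ← add_smul, Complex.re_add_im]
    show c • v ∈ E
    rw [h1]
    exact E.add_mem (E.smul_mem _ hv) (E.smul_mem _ (hI v hv))
  obtain ⟨R, -, hR⟩ := hE.cpt
  have h1 := Dir_span hR
  have haV : a ∈ V := (hV a).2 (by have := hE.mem 1; rwa [one_smul] at this)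
  have hVE : V.restrictScalars ℝ = E := by
    ext v
    exact hV v
  by_contra hne
  refine hs V ?_ ?_ ?_
  · intro h0
    rw [h0] at haV
    exact ha ((Submodule.mem_bot ℂ).1 haV)
  · intro h0
    apply hne
    rw [← hVE, h0]
    rfl
  · have h2 : (V : Set (Vd (k + 1))) = E := Set.ext fun v => hV v
    rw [h2, hVE]
    exact h1

end Pool.Agent.G4.E
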