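import Pool.Agent.G4.E.EDefs

/-!
# G4 E IdY: two maps which agree, pointwise, with one of finitely many maps

`fin_ident`: `Y` a finite dimensional complex space, `D'` closed, such that every `y` and every complex line through `y` ... `Y \ D'` is preconnected and nonempty (hypotheses).  `Φ` is holomorphic off `D'`, and at every point off `D'` it is equal
to one of the finitely many maps `Ψ ∈ S`, which are holomorphic off `D'`, too.  Then it is equal to one of them everywhere off `D'`.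

Proof.  The sets `{y ∉ D' | Φ y = Ψ y}` are closed in `D'ᶜ`, finitely many cover it: one has an interior point (`D'ᶜ` is open and nonempty; for finitely many closed sets: induction, or Baire).  The set of the points of `D'ᶜ` near which
`Φ = Ψ` is open, and closed in `D'ᶜ` (minors of the lifts, as in `G3/E/Idt.hol_ident`).
`compl_conn'`: the complement of `D'` is preconnected if every complex line of `Y` meets `D'` in isolated points: two points off `D'` are on a complex line, on which the complement of a closed discrete set is preconnected.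
-/

set_option autoImplicit false

open Topology Filter Metric

namespace Pool.Agent.G4.E

open Pool.Agent.H36.BP (EN fs wd)
open Pool.Agent.H14.PP (IsCone CurveAt Tan)
open Pool.Agent.H62.EF (MN pr)
open Pool.Agent.AD (Vd Chart Charts IsGerm)
open Pool.Agent.TG

variable {N k : ℕ} {X : Set (EN N)} {Λ : AddSubgroup (Vd (k + 1))} {u : EN N → Vd (k + 1)}

theorem compl_conn' {Y : Type} [NormedAddCommGroup Y] [NormedSpace ℂ Y] [FiniteDimensional ℂ Y] {D' : Set Y} (hD' : IsClosed D')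
    (hiso : ∀ y e : Y, e ≠ 0 → ∀ t : ℂ, ∀ᶠ w in 𝓝[≠] t, y + w • e ∉ D') : IsPreconnected (D'ᶜ : Set Y) := by
  refine isPreconnected_of_forall_pair fun x hx y hy => ?_
  by_cases hxy : x = y
  · exact ⟨{x}, Set.singleton_subset_iff.2 hx, rfl, hxy.symm, isPreconnected_singleton⟩
  have he : y - x ≠ 0 := sub_ne_zero.2 (Ne.symm hxy)
  obtain ⟨S, hS⟩ : ∃ S : Set ℂ, S = {w | x + w • (y - x) ∈ D'} := ⟨_, rfl⟩
  have hd : DiscreteTopology S := by
    rw [discreteTopology_subtype_iff]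
    intro t _
    have h1 : ∀ᶠ w in 𝓝[≠] t, w ∉ S := by
      filter_upwards [hiso x (y - x) he t] with w hw
      rw [hS]
      exact hw
    have h2 : Sᶜ ∈ 𝓝[≠] t := h1
    rwa [Filter.mem_iff_inf_principal_compl, compl_compl] at h2
  have hc : S.Countable := by
    have : Countable S := (TopologicalSpace.separableSpace_iff_countable (α := S)).1 inferInstance
    exact Set.countable_coe_iff.1 this
  have hp : IsPreconnected (Sᶜ : Set ℂ) := (hc.isPathConnected_compl_of_one_lt_rank (by rw [Complex.rank_real_complex]; exact Cardinal.one_lt_two)).isConnected.isPreconnected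
  refine ⟨(fun w : ℂ => x + w • (y - x)) '' Sᶜ, ?_, ⟨0, ?_, by simp⟩, ⟨1, ?_, by simp⟩, hp.image _ (by fun_prop)⟩
  · rintro _ ⟨w, hw, rfl⟩
    rw [hS] at hw
    exact hw
  · rw [hS]
    show ¬ x + (0 : ℂ) • (y - x) ∈ D'
    rw [zero_smul, add_zero]
    exact hx
  · rw [hS]
    show ¬ x + (1 : ℂ) • (y - x) ∈ D'
    rw [one_smul, add_sub_cancel]
    exact hy

private theorem iy_ne (hX : IsCone X) {x : EN N} (hx : x ∈ X) : x ≠ 0 := fun h => hX.zero_notMem (h ▸ hx)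

private theorem iy_pr_eq {x y : EN N} (hx : x ≠ 0) (hy : y ≠ 0) (h : ∀ i j, x i * y j = x j * y i) : pr x = pr y := by
  obtain ⟨j, hj⟩ : ∃ j, y j ≠ 0 := by
    by_contra h
    push Not at h
    apply hy
    ext i
    exact h i
  have h1 : x = (x j / y j) • y := by
    ext i
    show x i = x j / y j * y i
    rw [div_mul_eq_mul_div, ← h i j, mul_div_assoc, div_self hj, mul_one]
  have h2 : x j / y j ≠ 0 := by
    intro h0
    rw [h0, zero_smul] at h1
    exact hx h1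
  rw [Pool.Agent.H62.EF.pr_eq_iff hx hy]
  exact ⟨_, h2, h1⟩

private theorem iy_minor (hX : IsCone X) {x y : EN N} (hx : x ∈ X) (hy : y ∈ X) (h : pr x = pr y) (i j : Fin (N + 1)) : x i * y j - x j * y i = 0 := by
  obtain ⟨c, -, hc⟩ := (Pool.Agent.H62.EF.pr_eq_iff (iy_ne hX hx) (iy_ne hX hy)).1 h
  rw [hc]
  show c * y i * y j - c * y j * y i = 0
  ring

private theorem iy_cont {Y : Type} [NormedAddCommGroup Y] [NormedSpace ℂ Y] (hX : IsCone X) {D' : Set Y} {h : Y → Vd (k + 1)} {Φ : Y → MN N} (hΦ : HolY X Λ u D' h Φ) {y : Y}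
    (hy : y ∉ D') : ContinuousAt Φ y := by
  obtain ⟨φ, hφ, hφ'⟩ := hΦ y hy
  have h1 : φ y ≠ 0 := iy_ne hX hφ'.self_of_nhds.1
  have h2 : ContinuousAt (fun z => pr (φ z)) y := ContinuousAt.comp (g := (pr : EN N → MN N)) (f := φ) (Pool.Agent.H62.EF.continuousAt_pr h1) hφ.continuousAt
  exact h2.congr (hφ'.mono fun z hz => hz.2.1.symm)

/-- the identity theorem -/
private theorem iy_ident {Y : Type} [NormedAddCommGroup Y] [NormedSpace ℂ Y] (hX : IsCone X) {D' : Set Y} (hc : IsPreconnected (D'ᶜ : Set Y)) {h : Y → Vd (k + 1)} {Φ Ψ : Y → MN N}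
    (hΦ : HolY X Λ u D' h Φ) (hΨ : HolY X Λ u D' h Ψ) {y₀ : Y} (hy₀ : y₀ ∉ D') (h0 : ∀ᶠ y in 𝓝 y₀, Φ y = Ψ y) : ∀ y ∉ D', Φ y = Ψ y := by
  set U : Set Y := {z | ∀ᶠ w in 𝓝 z, Φ w = Ψ w} with hU
  have hUo : IsOpen U := by
    rw [isOpen_iff_mem_nhds]
    intro z hz
    exact hz.eventually_nhds
  have hsub : (D'ᶜ : Set Y) ⊆ U := by
    refine hc.subset_of_closure_inter_subset hUo ⟨y₀, hy₀, h0⟩ ?_
    rintro y ⟨hyc, hyD⟩
    obtain ⟨F, hF, hF'⟩ := hΦ y hyD
    obtain ⟨G, hG, hG'⟩ := hΨ y hyD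
    have h1 := hF.eventually_analyticAt.and (hG.eventually_analyticAt.and (hF'.and hG'))
    obtain ⟨r, hr, hb⟩ := Metric.eventually_nhds_iff_ball.1 h1
    obtain ⟨w, hwb, hwU⟩ := _root_.mem_closure_iff.1 hyc (ball y r) isOpen_ball (mem_ball_self hr)
    have hco : ∀ {η : Y → EN N} {v : Y}, AnalyticAt ℂ η v → ∀ l : Fin (N + 1), AnalyticAt ℂ (fun z => η z l) v := fun hη l =>
      ((EuclideanSpace.proj (𝕜 := ℂ) l : EN N →L[ℂ] ℂ).analyticAt _).comp hη
    have h2 : ∀ i j : Fin (N + 1), ∀ z ∈ ball y r, F z i * G z j = F z j * G z i := by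
      intro i j z hz
      have h3 : AnalyticOnNhd ℂ (fun z => F z i * G z j - F z j * G z i) (ball y r) := fun v hv => by
        have h4 := hb v hv
        exact ((hco h4.1 i).mul (hco h4.2.1 j)).sub ((hco h4.1 j).mul (hco h4.2.1 i))
      have h4 : ∀ᶠ v in 𝓝 w, F v i * G v j - F v j * G v i = 0 := by
        filter_upwards [hwU, isOpen_ball.mem_nhds hwb] with v hv hvb
        obtain ⟨-, -, ⟨h5, h6, -⟩, h8, h9, -⟩ := hb v hvb
        exact iy_minor hX h5 h8 (by rw [← h6, ← h9, hv]) i j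
      exact sub_eq_zero.1 (h3.eqOn_zero_of_preconnected_of_eventuallyEq_zero (convex_ball y r).isPreconnected hwb h4 hz)
    show ∀ᶠ w in 𝓝 y, Φ w = Ψ w
    filter_upwards [isOpen_ball.mem_nhds (mem_ball_self hr : y ∈ ball y r)] with z hz
    obtain ⟨-, -, ⟨h5, h6, -⟩, h8, h9, -⟩ := hb z hz
    rw [h6, h9]
    exact iy_pr_eq (iy_ne hX h5) (iy_ne hX h8) fun i j => h2 i j z hz
  intro z hz
  exact (hsub hz : z ∈ U).self_of_nhds

theorem fin_ident {Y : Type} [NormedAddCommGroup Y] [NormedSpace ℂ Y] [FiniteDimensional ℂ Y] (hX : IsCone X) {D' : Set Y} (hD' : IsClosed D') (hc : IsPreconnected (D'ᶜ : Set Y))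
    (hne : (D'ᶜ : Set Y).Nonempty) {h : Y → Vd (k + 1)} {Φ : Y → MN N} (hΦ : HolY X Λ u D' h Φ) {S : Set (Y → MN N)} (hS : S.Finite) (hSh : ∀ Ψ ∈ S, HolY X Λ u D' h Ψ)
    (hcov : ∀ y ∉ D', ∃ Ψ ∈ S, Φ y = Ψ y) : ∃ Ψ ∈ S, ∀ y ∉ D', Φ y = Ψ y := by
  have key : ∀ T : Set (Y → MN N), T.Finite → T ⊆ S → ∀ U : Set Y, IsOpen U → U.Nonempty → U ⊆ D'ᶜ → (∀ y ∈ U, ∃ Ψ ∈ T, Φ y = Ψ y) → ∃ Ψ ∈ T, ∃ y₀ ∉ D', ∀ᶠ y in 𝓝 y₀, Φ y = Ψ y := by
    intro T hT
    induction T, hT using Set.Finite.induction_on with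
    | empty =>
      rintro - U - ⟨y, hy⟩ - hU
      obtain ⟨Ψ, hΨ, -⟩ := hU y hy
      exact absurd hΨ (Set.notMem_empty Ψ)
    | insert hnot hfin ih =>
      rename_i Ψ T'
      intro hTS U hUo hUne hUD hU
      by_cases hall : ∀ y ∈ U, Φ y = Ψ y
      · obtain ⟨y₀, hy₀⟩ := hUne
        exact ⟨Ψ, Set.mem_insert _ _, y₀, hUD hy₀, by filter_upwards [hUo.mem_nhds hy₀] with y hy using hall y hy⟩
      · push Not at hall
        obtain ⟨y₁, hy₁, hne₁⟩ := hall
        have h1 := iy_cont hX hΦ (hUD hy₁)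
        have h2 := iy_cont hX (hSh Ψ (hTS (Set.mem_insert _ _))) (hUD hy₁)
        have h3 : ∀ᶠ y in 𝓝 y₁, Φ y ≠ Ψ y ∧ y ∈ U := ((h1.prodMk h2).eventually (isClosed_diagonal.isOpen_compl.mem_nhds (show (Φ y₁, Ψ y₁) ∉ Set.diagonal (MN N) from hne₁))).and (hUo.mem_nhds hy₁)
        obtain ⟨V, hV, hVo, hyV⟩ := _root_.eventually_nhds_iff.1 h3
        obtain ⟨Ψ', hΨ', h4⟩ := ih (fun x hx => hTS (Set.mem_insert_of_mem _ hx)) V hVo ⟨y₁, hyV⟩ (fun y hy => hUD (hV y hy).2) (fun y hy => by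
          obtain ⟨Ψ', hΨ', h5⟩ := hU y (hV y hy).2
          rcases hΨ' with rfl | hΨ'
          · exact absurd h5 (hV y hy).1
          · exact ⟨Ψ', hΨ', h5⟩)
        exact ⟨Ψ', Set.mem_insert_of_mem _ hΨ', h4⟩
  obtain ⟨Ψ, hΨ, y₀, hy₀, h1⟩ := key S hS subset_rfl _ hD'.isOpen_compl hne subset_rfl hcov
  exact ⟨Ψ, hΨ, iy_ident hX hc hΦ (hSh Ψ hΨ) hy₀ h1⟩

end Pool.Agent.G4.E
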