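import Pool.Agent.G4.E.ArcG
import Pool.Agent.G4.E.IdY

/-!
# G4 E Dn: comparison with the finite set of the global sections

`Cl X Λ u D SS a`: every curve over a line of direction `a` is the restriction of a member of `SS`, off `D`.
`cl_of_gd`: `SS` are the global sheets of the direction `a₀`, `SS'` those of the direction `a`, all are weakly meromorphic: `Cl SS a`.  (On every line of direction `a₀` a sheet `φ` of the direction `a` is a curve (`line_ext`), so equal to a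
member of `SS` there; `fin_ident`.)
-/

set_option autoImplicit false

open Topology Filter Metric

namespace Pool.Agent.G4.E

open Pool.Agent.H36.BP (EN fs wd)
open Pool.Agent.H14.PP (IsCone CurveAt Tan)
open Pool.Agent.H62.EF (MN pr)
open Pool.Agent.AD (Vd Chart Charts IsGerm)
open Pool.Agent.TG
open Pool.Agent.G3.A (Hc)
open Pool.Agent.G3.E (Hol GD)

variable {N k : ℕ} {X : Set (EN N)} {Λ : AddSubgroup (Vd (k + 1))} {u : EN N → Vd (k + 1)} {D : Set (Vd (k + 1))}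

/-- every curve over a line of direction `a` is the restriction of a member of `SS` -/
def Cl (X : Set (EN N)) (Λ : AddSubgroup (Vd (k + 1))) (u : EN N → Vd (k + 1)) (D : Set (Vd (k + 1))) (SS : Set (Vd (k + 1) → MN N)) (a : Vd (k + 1)) : Prop :=
  ∀ b, ∀ f ∈ Hc X Λ u a b, ∃ Φ ∈ SS, ∀ z : ℂ, b + z • a ∉ D → f z = Φ (b + z • a)

/-- the isolated points of `D` on the lines -/
theorem iso_shift {a : Vd (k + 1)} (hiso : ∀ y : Vd (k + 1), ∀ᶠ z in 𝓝[≠] (0 : ℂ), y + z • a ∉ D) (y : Vd (k + 1)) (z : ℂ) : ∀ᶠ w in 𝓝[≠] z, y + w • a ∉ D := by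
  have h2 : Tendsto (fun w : ℂ => w - z) (𝓝[≠] z) (𝓝[≠] 0) := by
    rw [tendsto_nhdsWithin_iff]
    refine ⟨?_, ?_⟩
    · have h3 : Continuous fun w : ℂ => w - z := by fun_prop
      have h4 := h3.tendsto z
      rw [sub_self] at h4
      exact h4.mono_left nhdsWithin_le_nhds
    · filter_upwards [self_mem_nhdsWithin] with w hw
      exact sub_ne_zero.2 hw
  filter_upwards [h2.eventually (hiso (y + z • a))] with w hw
  rwa [add_assoc, ← add_smul, add_sub_cancel] at hw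

theorem cl_of_gd {d : ℕ} (hX : IsCone X) (hch : Charts d X) (ht : TMap X Λ u) (hl : Lat Λ) (hD : IsClosed D)
    (hiso : ∀ a : Vd (k + 1), a ≠ 0 → ∀ y : Vd (k + 1), ∀ᶠ z in 𝓝[≠] (0 : ℂ), y + z • a ∉ D) (hne : (Dᶜ : Set (Vd (k + 1))).Nonempty) {a₀ a : Vd (k + 1)} (ha₀ : a₀ ≠ 0)
    {SS SS' : Set (Vd (k + 1) → MN N)} (hS : GD X Λ u D a₀ SS) (hS' : GD X Λ u D a SS')
    (hm' : ∀ φ ∈ SS', ∀ y₀, ∃ G : Vd (k + 1) → EN N, AnalyticAt ℂ G y₀ ∧ (∃ᶠ z in 𝓝 y₀, G z ≠ 0) ∧ ∀ᶠ z in 𝓝 y₀, G z ≠ 0 → φ z = pr (G z)) : Cl X Λ u D SS a := by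
  intro b f hf
  obtain ⟨φ, hφ, hφf⟩ := hS'.ex b f hf
  have hH : ∀ ψ : Vd (k + 1) → MN N, Hol X Λ u D ψ → HolY X Λ u D (fun y => y) ψ := fun ψ h => h
  have hM : MerY D φ := fun y => by
    obtain ⟨G, h1, h2, h3⟩ := hm' φ hφ y
    exact ⟨G, h1, h2, h3.mono fun z hz _ => hz⟩
  obtain ⟨Φ, hΦ, he⟩ := fin_ident (X := X) (Λ := Λ) (u := u) (h := fun y => y) hX hD (compl_conn' hD fun y e he t => iso_shift (hiso e he) y t) hne (hH φ (hS'.hol φ hφ)) hS.fin
    (fun Ψ hΨ => hH Ψ (hS.hol Ψ hΨ)) (fun y hy => by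
      obtain ⟨g, hg, hge⟩ := line_ext hX hch ht hl hD (h := fun y => y) (fun y => analyticAt_id) (hH φ (hS'.hol φ hφ)) hM (y := y) (e := a₀) (fun t => iso_shift (hiso a₀ ha₀) y t)
        (b := y) (a' := a₀) (fun t => rfl)
      obtain ⟨Φ, hΦ, hΦg⟩ := hS.ex y g hg
      refine ⟨Φ, hΦ, ?_⟩
      have h1 := hge 0 (by simpa using hy)
      have h2 := hΦg 0
      rw [zero_smul, add_zero] at h1 h2
      rw [← h1, ← h2])
  exact ⟨Φ, hΦ, fun z hz => by rw [← hφf z, he _ hz]⟩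

end Pool.Agent.G4.E
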