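import Pool.Agent.G4.A.Defs
import Pool.Agent.G4.Simp
import Pool.Agent.G3.E.Defs

/-!
# G4 E EDefs: maps with holomorphic and meromorphic lifts

`Y` is a finite dimensional complex space, `h : Y → ℂ^(k+1)`, `Φ : Y → ℙ^N` (values on `D'` do not matter).

* `HolY X Λ u D' h Φ`: off `D'` the map `Φ` is holomorphic, with values in `X`, over `h`.
* `MerY D' Φ`: `Φ` has analytic lifts which are not identically `0`, at every point.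
-/

set_option autoImplicit false

open Topology Filter Metric

namespace Pool.Agent.G4.E

open Pool.Agent.H36.BP (EN fs wd)
open Pool.Agent.H14.PP (IsCone CurveAt Tan)
open Pool.Agent.H62.EF (MN pr)
open Pool.Agent.AD (Vd Chart Charts IsGerm)
open Pool.Agent.TG

variable {N k : ℕ}

/-- holomorphic off `D'`, with values in `X`, over `h` -/
def HolY {Y : Type} [NormedAddCommGroup Y] [NormedSpace ℂ Y] (X : Set (EN N)) (Λ : AddSubgroup (Vd (k + 1))) (u : EN N → Vd (k + 1)) (D' : Set Y) (h : Y → Vd (k + 1)) (Φ : Y → MN N) : Prop :=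
  ∀ y ∉ D', ∃ φ : Y → EN N, AnalyticAt ℂ φ y ∧ ∀ᶠ z in 𝓝 y, φ z ∈ X ∧ Φ z = pr (φ z) ∧ u (φ z) - h z ∈ Λ

/-- meromorphic lifts -/
def MerY {Y : Type} [NormedAddCommGroup Y] [NormedSpace ℂ Y] (D' : Set Y) (Φ : Y → MN N) : Prop :=
  ∀ y, ∃ φ : Y → EN N, AnalyticAt ℂ φ y ∧ (∃ᶠ z in 𝓝 y, φ z ≠ 0) ∧ ∀ᶠ z in 𝓝 y, z ∉ D' → φ z ≠ 0 → Φ z = pr (φ z)

/-- the family of curves over the plane `b + ζ ν + z a`, with the lifts of `BC` -/
structure Pln (X : Set (EN N)) (Λ : AddSubgroup (Vd (k + 1))) (u : EN N → Vd (k + 1)) (a ν b : Vd (k + 1)) (Ψ : ℂ → ℂ → MN N) : Prop where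
  line : ∀ ζ : ℂ, Ψ ζ ∈ Pool.Agent.G3.A.Hc X Λ u a (b + ζ • ν)
  lift : ∀ ζ z : ℂ, ∃ G : ℂ × ℂ → EN N, AnalyticAt ℂ G (ζ, z) ∧ (¬ ∀ᶠ w in 𝓝 z, G (ζ, w) = 0) ∧ ∀ᶠ p in 𝓝 (ζ, z), G p ≠ 0 → Ψ p.1 p.2 = pr (G p)

end Pool.Agent.G4.E
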