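import Pool.Agent.G4.E.EDefs
import Pool.Agent.G4.E.Cnt

/-!
# G4 E Ext: continuation over the plane

`ext_plane`: every curve over the line `b + ℂ a` is the member `ζ = 0` of a family over `b + ζ ν + z a`, `ζ ∈ ℂ`.

`LS b U s`: `s` is a family over the open set `U` of parameters `ζ`, with the lifts of `BC`.  `ne_open`, `eq_open`: two families which are different (equal) at `ζ₀` are different (equal) near `ζ₀`: for `ne_open` the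
argument of `pair_ne`; for `eq_open`: near `ζ₀` the members of `BC (b + ζ₀ ν)` are `n` different curves, so all curves over `b + ζ ν` (`ncard_line`).  `uniq`: families over a preconnected open set which agree at one point
are equal.  `step`: a family over a strip is extended by the families of `BC` over a second strip which meets the first one (all curves over a point of the second strip are in these families, by `uniq` and `ncard_line`).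
The supremum of the `h` such that there is a family over `|Im ζ| < h` is infinite.
-/

set_option autoImplicit false

open Topology Filter Metric

namespace Pool.Agent.G4.E

open Pool.Agent.H36.BP (EN fs wd)
open Pool.Agent.H14.PP (IsCone CurveAt Tan)
open Pool.Agent.H62.EF (MN pr)
open Pool.Agent.AD (Vd Chart Charts IsGerm)
open Pool.Agent.TG
open Pool.Agent.G3.A (Ba Hc Frm)
open Pool.Agent.G3.E (BC)
open Pool.Agent.G4.A (DA hc_finite)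

variable {N k : ℕ} {X : Set (EN N)} {Λ : AddSubgroup (Vd (k + 1))} {u : EN N → Vd (k + 1)} {D B Bad : Set (Vd (k + 1))} {a ν : Vd (k + 1)}
  {Γ : AddSubgroup (Vd (k + 1))} {J r : ℕ} {W : Fin r → Vd (k + 1) →L[ℂ] ℂ} {α : Fin J → VForm X Λ u} {c₀ C₀ ρ δ : ℝ}

/-- a family of curves over the set `U` of parameters -/
private def LS (X : Set (EN N)) (Λ : AddSubgroup (Vd (k + 1))) (u : EN N → Vd (k + 1)) (a ν b : Vd (k + 1)) (U : Set ℂ) (s : ℂ → ℂ → MN N) : Prop :=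
  ∀ ζ ∈ U, s ζ ∈ Hc X Λ u a (b + ζ • ν) ∧ ∀ z : ℂ, ∃ G : ℂ × ℂ → EN N, AnalyticAt ℂ G (ζ, z) ∧ (¬ ∀ᶠ w in 𝓝 z, G (ζ, w) = 0) ∧ ∀ᶠ p in 𝓝 (ζ, z), G p ≠ 0 → s p.1 p.2 = pr (G p)

private theorem LS.mono {b : Vd (k + 1)} {U V : Set ℂ} {s : ℂ → ℂ → MN N} (h : LS X Λ u a ν b U s) (hle : V ⊆ U) : LS X Λ u a ν b V s := fun ζ hζ => h ζ (hle hζ)

private theorem LS.congr {b : Vd (k + 1)} {U : Set ℂ} {s t : ℂ → ℂ → MN N} (h : LS X Λ u a ν b U s) (hst : ∀ ζ ∈ U, ∀ᶠ ζ' in 𝓝 ζ, t ζ' = s ζ') : LS X Λ u a ν b U t := by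
  intro ζ hζ
  obtain ⟨h1, h2⟩ := h ζ hζ
  refine ⟨by rw [(hst ζ hζ).self_of_nhds]; exact h1, fun z => ?_⟩
  obtain ⟨G, hG, hG0, hGe⟩ := h2 z
  refine ⟨G, hG, hG0, ?_⟩
  have hc : Tendsto (fun p : ℂ × ℂ => p.1) (𝓝 (ζ, z)) (𝓝 ζ) := continuous_fst.tendsto (ζ, z)
  filter_upwards [hGe, hc.eventually (hst ζ hζ)] with p hp hp2 hp3
  rw [hp2]
  exact hp hp3

/-- the lifts after a translation of the parameter -/
private theorem shift_lift {ζ₀ ζ z : ℂ} {s : ℂ → ℂ → MN N}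
    (h : ∃ G : ℂ × ℂ → EN N, AnalyticAt ℂ G (ζ₀ + ζ, z) ∧ (¬ ∀ᶠ w in 𝓝 z, G (ζ₀ + ζ, w) = 0) ∧ ∀ᶠ p in 𝓝 (ζ₀ + ζ, z), G p ≠ 0 → s p.1 p.2 = pr (G p)) :
    ∃ G : ℂ × ℂ → EN N, AnalyticAt ℂ G (ζ, z) ∧ (¬ ∀ᶠ w in 𝓝 z, G (ζ, w) = 0) ∧ ∀ᶠ p in 𝓝 (ζ, z), G p ≠ 0 → s (ζ₀ + p.1) p.2 = pr (G p) := by
  obtain ⟨G, hG, hG0, hGe⟩ := h
  have h1 : AnalyticAt ℂ (fun p : ℂ × ℂ => (ζ₀ + p.1, p.2)) (ζ, z) := (analyticAt_const.add analyticAt_fst).prod analyticAt_snd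
  have h2 : Tendsto (fun p : ℂ × ℂ => (ζ₀ + p.1, p.2)) (𝓝 (ζ, z)) (𝓝 (ζ₀ + ζ, z)) := h1.continuousAt.tendsto
  refine ⟨fun p => G (ζ₀ + p.1, p.2), AnalyticAt.fun_comp (g := G) (f := fun p : ℂ × ℂ => (ζ₀ + p.1, p.2)) hG h1, hG0, ?_⟩
  exact h2.eventually hGe

private theorem ne_open (hX : IsCone X) {b : Vd (k + 1)} {U : Set ℂ} {s t : ℂ → ℂ → MN N} (hs : LS X Λ u a ν b U s) (ht : LS X Λ u a ν b U t) {ζ₀ : ℂ} (hζ : ζ₀ ∈ U)
    (hne : s ζ₀ ≠ t ζ₀) : ∀ᶠ ζ in 𝓝 ζ₀, s ζ ≠ t ζ := by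
  have h1 := pair_ne (a := a) hX (hs ζ₀ hζ).1 (ht ζ₀ hζ).1 hne (Ψ := fun ζ => s (ζ₀ + ζ)) (Φ := fun ζ => t (ζ₀ + ζ)) (fun z => by simp) (fun z => by simp)
    (fun z => shift_lift (by simpa using (hs ζ₀ hζ).2 z)) (fun z => shift_lift (by simpa using (ht ζ₀ hζ).2 z))
  have h2 : Tendsto (fun ζ : ℂ => ζ - ζ₀) (𝓝 ζ₀) (𝓝 0) := by
    have h : Continuous fun ζ : ℂ => ζ - ζ₀ := by fun_prop
    simpa using h.tendsto ζ₀
  filter_upwards [h2.eventually h1] with ζ h3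
  simpa using h3

/-- the families of `BC` at `b + ζ₀ ν` -/
private theorem loc_fam {b : Vd (k + 1)} (hBC : ∀ b, BC X Λ u a ν b) (ζ₀ : ℂ) : ∃ (ε : ℝ) (Φ : (ℂ → MN N) → ℂ → ℂ → MN N), 0 < ε ∧
    ∀ f ∈ Hc X Λ u a (b + ζ₀ • ν), Φ f ζ₀ = f ∧ LS X Λ u a ν b {ζ | |ζ.im - ζ₀.im| < ε} (Φ f) := by
  obtain ⟨ε, hε, hΨ⟩ := hBC (b + ζ₀ • ν)
  choose! Ψ h0 hH hG using hΨ
  refine ⟨ε, fun f ζ => Ψ f (ζ - ζ₀), hε, fun f hf => ⟨?_, fun ζ hζ => ⟨?_, fun z => ?_⟩⟩⟩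
  · funext z
    show Ψ f (ζ₀ - ζ₀) z = f z
    rw [sub_self]
    exact h0 f hf z
  · have h1 := hH f hf (ζ - ζ₀) (by simpa using hζ)
    have h2 : b + ζ₀ • ν + (ζ - ζ₀) • ν = b + ζ • ν := by
      rw [add_assoc, ← add_smul, add_sub_cancel]
    rwa [h2] at h1
  · have h1 := hG f hf (ζ - ζ₀) z (by simpa using hζ)
    have h2 := shift_lift (ζ₀ := -ζ₀) (ζ := ζ) (z := z) (s := Ψ f) (by
      have h3 : -ζ₀ + ζ = ζ - ζ₀ := by ring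
      rw [h3]
      exact h1)
    obtain ⟨G, hG1, hG2, hG3⟩ := h2
    refine ⟨G, hG1, hG2, ?_⟩
    filter_upwards [hG3] with p hp hp2
    have h3 : p.1 - ζ₀ = -ζ₀ + p.1 := by ring
    show Ψ f (p.1 - ζ₀) p.2 = pr (G p)
    rw [h3]
    exact hp hp2

private theorem eq_open (S : DA X Λ u D B Bad a Γ W α c₀ C₀ ρ δ) (hBC : ∀ b, BC X Λ u a ν b) {b : Vd (k + 1)} {U : Set ℂ} (hU : IsOpen U) {s t : ℂ → ℂ → MN N}
    (hs : LS X Λ u a ν b U s) (ht : LS X Λ u a ν b U t) {ζ₀ : ℂ} (hζ : ζ₀ ∈ U) (he : s ζ₀ = t ζ₀) : ∀ᶠ ζ in 𝓝 ζ₀, s ζ = t ζ := by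
  obtain ⟨ε, Φ, hε, hΦ⟩ := loc_fam (b := b) hBC ζ₀
  obtain ⟨V, hV⟩ : ∃ V : Set ℂ, V = {ζ | |ζ.im - ζ₀.im| < ε} := ⟨_, rfl⟩
  have hVo : IsOpen V := by
    rw [hV]
    exact isOpen_lt ((Complex.continuous_im.sub continuous_const).abs) continuous_const
  have hζV : ζ₀ ∈ V := by
    rw [hV]
    show |ζ₀.im - ζ₀.im| < ε
    rw [sub_self, abs_zero]
    exact hε
  rw [← hV] at hΦ
  have hfin := hc_finite S (b + ζ₀ • ν)
  -- near `ζ₀` the members are different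
  have h1 : ∀ p ∈ (Hc X Λ u a (b + ζ₀ • ν)) ×ˢ (Hc X Λ u a (b + ζ₀ • ν)), ∀ᶠ ζ in 𝓝 ζ₀, p.1 ≠ p.2 → Φ p.1 ζ ≠ Φ p.2 ζ := by
    rintro ⟨f, g⟩ ⟨hf, hg⟩
    by_cases hfg : f = g
    · exact Eventually.of_forall fun ζ h => absurd hfg h
    · refine (ne_open S.geo.cone (hΦ f hf).2 (hΦ g hg).2 hζV ?_).mono fun ζ h _ => h
      rw [(hΦ f hf).1, (hΦ g hg).1]
      exact hfg
  have h1' := (eventually_all_finite (hfin.prod hfin)).2 h1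
  have key : ∀ {s : ℂ → ℂ → MN N}, LS X Λ u a ν b U s → ∀ᶠ ζ in 𝓝 ζ₀, s ζ = Φ (s ζ₀) ζ := by
    intro s hs
    have hsUV : LS X Λ u a ν b (U ∩ V) s := hs.mono Set.inter_subset_left
    have h2 : ∀ g ∈ Hc X Λ u a (b + ζ₀ • ν), ∀ᶠ ζ in 𝓝 ζ₀, s ζ₀ ≠ g → s ζ ≠ Φ g ζ := by
      intro g hg
      by_cases hfg : s ζ₀ = g
      · exact Eventually.of_forall fun ζ h => absurd hfg h
      · refine (ne_open S.geo.cone hsUV ((hΦ g hg).2.mono Set.inter_subset_right) ⟨hζ, hζV⟩ ?_).mono fun ζ h _ => h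
        rw [(hΦ g hg).1]
        exact hfg
    have h2' := (eventually_all_finite hfin).2 h2
    filter_upwards [h1', h2', hU.mem_nhds hζ, hVo.mem_nhds hζV] with ζ h3 h4 h5 h6
    have hinj : Set.InjOn (fun g => Φ g ζ) (Hc X Λ u a (b + ζ₀ • ν)) := by
      intro f hf g hg hfg
      by_contra hne
      exact h3 (f, g) ⟨hf, hg⟩ hne hfg
    have himg : (fun g => Φ g ζ) '' Hc X Λ u a (b + ζ₀ • ν) = Hc X Λ u a (b + ζ • ν) := by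
      refine Set.eq_of_subset_of_ncard_le ?_ ?_ (hc_finite S _)
      · rintro _ ⟨g, hg, rfl⟩
        exact ((hΦ g hg).2 ζ h6).1
      · rw [hinj.ncard_image, ncard_line S hBC b ζ, ncard_line S hBC b ζ₀]
    have h7 : s ζ ∈ Hc X Λ u a (b + ζ • ν) := (hs ζ h5).1
    rw [← himg] at h7
    obtain ⟨g, hg, hgs⟩ := h7
    by_cases hfg : s ζ₀ = g
    · rw [hfg]
      exact hgs.symm
    · exact absurd hgs.symm (h4 g hg hfg)
  filter_upwards [key hs, key ht] with ζ h2 h3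
  rw [h2, h3, he]

private theorem uniq (S : DA X Λ u D B Bad a Γ W α c₀ C₀ ρ δ) (hBC : ∀ b, BC X Λ u a ν b) {b : Vd (k + 1)} {U : Set ℂ} (hU : IsOpen U) (hc : IsPreconnected U)
    {s t : ℂ → ℂ → MN N} (hs : LS X Λ u a ν b U s) (ht : LS X Λ u a ν b U t) {ζ₁ : ℂ} (hζ : ζ₁ ∈ U) (he : s ζ₁ = t ζ₁) : ∀ ζ ∈ U, s ζ = t ζ := by
  by_contra hcon
  push Not at hcon
  obtain ⟨ζ₂, hζ₂, hne⟩ := hcon
  obtain ⟨A, hA⟩ : ∃ A : Set ℂ, A = {ζ | ζ ∈ U ∧ s ζ = t ζ} := ⟨_, rfl⟩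
  obtain ⟨A', hA'⟩ : ∃ A' : Set ℂ, A' = {ζ | ζ ∈ U ∧ s ζ ≠ t ζ} := ⟨_, rfl⟩
  have hAo : IsOpen A := by
    rw [isOpen_iff_mem_nhds]
    intro ζ hζA
    rw [hA] at hζA ⊢
    filter_upwards [hU.mem_nhds hζA.1, eq_open S hBC hU hs ht hζA.1 hζA.2] with ζ' h1 h2 using ⟨h1, h2⟩
  have hAo' : IsOpen A' := by
    rw [isOpen_iff_mem_nhds]
    intro ζ hζA
    rw [hA'] at hζA ⊢
    filter_upwards [hU.mem_nhds hζA.1, ne_open S.geo.cone hs ht hζA.1 hζA.2] with ζ' h1 h2 using ⟨h1, h2⟩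
  obtain ⟨ζ₃, -, h3, h4⟩ := hc A A' hAo hAo' (fun ζ h => by
    by_cases h5 : s ζ = t ζ
    · exact Or.inl (by rw [hA]; exact ⟨h, h5⟩)
    · exact Or.inr (by rw [hA']; exact ⟨h, h5⟩)) ⟨ζ₁, hζ, by rw [hA]; exact ⟨hζ, he⟩⟩ ⟨ζ₂, hζ₂, by rw [hA']; exact ⟨hζ₂, hne⟩⟩
  rw [hA] at h3
  rw [hA'] at h4
  exact h4.2 h3.2

/-- the strip -/
private def Tr (p q : ℝ) : Set ℂ := {ζ | p < ζ.im ∧ ζ.im < q}

private theorem tr_open (p q : ℝ) : IsOpen (Tr p q) :=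
  (isOpen_lt continuous_const Complex.continuous_im).inter (isOpen_lt Complex.continuous_im continuous_const)

private theorem tr_conv (p q : ℝ) : Convex ℝ (Tr p q) :=
  (convex_halfSpace_im_gt p).inter (convex_halfSpace_im_lt q)

/-- a family over a strip is extended -/
private theorem step (S : DA X Λ u D B Bad a Γ W α c₀ C₀ ρ δ) (hBC : ∀ b, BC X Λ u a ν b) {b : Vd (k + 1)} (c : ℝ) : ∃ ε : ℝ, 0 < ε ∧
    ∀ (p q : ℝ) (s : ℂ → ℂ → MN N), LS X Λ u a ν b (Tr p q) s → max p (c - ε) < min q (c + ε) →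
      ∃ t : ℂ → ℂ → MN N, LS X Λ u a ν b (Tr (min p (c - ε)) (max q (c + ε))) t ∧ ∀ ζ ∈ Tr p q, t ζ = s ζ := by
  classical
  obtain ⟨ε, Φ, hε, hΦ⟩ := loc_fam (b := b) hBC ((c : ℂ) * Complex.I)
  refine ⟨ε, hε, fun p q s hs hpq => ?_⟩
  have hV : {ζ : ℂ | |ζ.im - ((c : ℂ) * Complex.I).im| < ε} = Tr (c - ε) (c + ε) := by
    ext ζ
    have h1 : ((c : ℂ) * Complex.I).im = c := by simp
    simp only [Tr, Set.mem_ofPred_eq, h1, abs_lt]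
    constructor
    · rintro ⟨h2, h3⟩
      exact ⟨by linarith, by linarith⟩
    · rintro ⟨h2, h3⟩
      exact ⟨by linarith, by linarith⟩
  rw [hV] at hΦ
  have hcV : (c : ℂ) * Complex.I ∈ Tr (c - ε) (c + ε) := by
    have h1 : ((c : ℂ) * Complex.I).im = c := by simp
    exact ⟨by rw [h1]; linarith, by rw [h1]; linarith⟩
  -- a point of both strips
  obtain ⟨y, hy⟩ : ∃ y : ℝ, y = (max p (c - ε) + min q (c + ε)) / 2 := ⟨_, rfl⟩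
  have hy1 : max p (c - ε) < y := by rw [hy]; linarith
  have hy2 : y < min q (c + ε) := by rw [hy]; linarith
  rw [max_lt_iff] at hy1
  rw [lt_min_iff] at hy2
  obtain ⟨ζ₁, hζ₁⟩ : ∃ ζ₁ : ℂ, ζ₁.im = y := ⟨(y : ℂ) * Complex.I, by simp⟩
  have h1 : ζ₁ ∈ Tr p q := ⟨by rw [hζ₁]; exact hy1.1, by rw [hζ₁]; exact hy2.1⟩
  have h2 : ζ₁ ∈ Tr (c - ε) (c + ε) := ⟨by rw [hζ₁]; exact hy1.2, by rw [hζ₁]; exact hy2.2⟩
  -- the member of the second family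
  have hinj : Set.InjOn (fun g => Φ g ζ₁) (Hc X Λ u a (b + ((c : ℂ) * Complex.I) • ν)) := by
    intro f hf g hg hfg
    have h3 := uniq S hBC (tr_open _ _) (tr_conv _ _).isPreconnected (hΦ f hf).2 (hΦ g hg).2 h2 hfg _ hcV
    rw [(hΦ f hf).1, (hΦ g hg).1] at h3
    exact h3
  have himg : (fun g => Φ g ζ₁) '' Hc X Λ u a (b + ((c : ℂ) * Complex.I) • ν) = Hc X Λ u a (b + ζ₁ • ν) := by
    refine Set.eq_of_subset_of_ncard_le ?_ ?_ (hc_finite S _)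
    · rintro _ ⟨g, hg, rfl⟩
      exact ((hΦ g hg).2 ζ₁ h2).1
    · rw [hinj.ncard_image, ncard_line S hBC b ζ₁, ncard_line S hBC b ((c : ℂ) * Complex.I)]
  have h3 : s ζ₁ ∈ Hc X Λ u a (b + ζ₁ • ν) := (hs ζ₁ h1).1
  rw [← himg] at h3
  obtain ⟨g, hg, hgs⟩ := h3
  have hagree : ∀ ζ ∈ Tr p q ∩ Tr (c - ε) (c + ε), s ζ = Φ g ζ :=
    uniq S hBC ((tr_open _ _).inter (tr_open _ _)) ((tr_conv _ _).inter (tr_conv _ _)).isPreconnected (hs.mono Set.inter_subset_left) ((hΦ g hg).2.mono Set.inter_subset_right)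
      ⟨h1, h2⟩ hgs.symm
  obtain ⟨t, ht⟩ : ∃ t : ℂ → ℂ → MN N, t = fun ζ => if ζ ∈ Tr p q then s ζ else Φ g ζ := ⟨_, rfl⟩
  have ht1 : ∀ ζ ∈ Tr p q, t ζ = s ζ := fun ζ hζ => by rw [ht]; exact if_pos hζ
  have ht2 : ∀ ζ ∈ Tr (c - ε) (c + ε), t ζ = Φ g ζ := fun ζ hζ => by
    by_cases h4 : ζ ∈ Tr p q
    · rw [ht1 ζ h4]
      exact hagree ζ ⟨h4, hζ⟩
    · rw [ht]
      exact if_neg h4
  have hL1 : LS X Λ u a ν b (Tr p q) t := hs.congr fun ζ hζ => by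
    filter_upwards [(tr_open p q).mem_nhds hζ] with ζ' h using ht1 ζ' h
  have hL2 : LS X Λ u a ν b (Tr (c - ε) (c + ε)) t := (hΦ g hg).2.congr fun ζ hζ => by
    filter_upwards [(tr_open (c - ε) (c + ε)).mem_nhds hζ] with ζ' h using ht2 ζ' h
  refine ⟨t, fun ζ hζ => ?_, ht1⟩
  rcases hζ with ⟨h4, h5⟩
  have h6 : ζ ∈ Tr p q ∨ ζ ∈ Tr (c - ε) (c + ε) := by
    by_contra hcon
    push Not at hcon
    obtain ⟨h7, h8⟩ := hcon
    have h7' : ¬ (p < ζ.im ∧ ζ.im < q) := h7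
    have h8' : ¬ (c - ε < ζ.im ∧ ζ.im < c + ε) := h8
    have h9 : p < y := hy1.1
    have h10 := hy1.2
    have h11 := hy2.1
    have h12 := hy2.2
    rcases min_lt_iff.1 h4 with h13 | h13
    · have h14 : q ≤ ζ.im := by
        by_contra h
        exact h7' ⟨h13, not_le.1 h⟩
      have h15 : ζ.im < c + ε := (lt_max_iff.1 h5).resolve_left (not_lt.2 h14)
      exact h8' ⟨by linarith, h15⟩
    · have h14 : c + ε ≤ ζ.im := by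
        by_contra h
        exact h8' ⟨h13, not_le.1 h⟩
      have h15 : ζ.im < q := (lt_max_iff.1 h5).resolve_right (not_lt.2 h14)
      exact h7' ⟨by linarith, h15⟩
  rcases h6 with h6 | h6
  · exact hL1 ζ h6
  · exact hL2 ζ h6

theorem ext_plane (S : DA X Λ u D B Bad a Γ W α c₀ C₀ ρ δ) (hBC : ∀ b, BC X Λ u a ν b) (b : Vd (k + 1)) {f : ℂ → MN N} (hf : f ∈ Hc X Λ u a b) :
    ∃ Ψ : ℂ → ℂ → MN N, (∀ z, Ψ 0 z = f z) ∧ Pln X Λ u a ν b Ψ := by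
  -- the set of the good `h`
  obtain ⟨H, hH⟩ : ∃ H : Set ℝ, H = {h | ∃ s : ℂ → ℂ → MN N, LS X Λ u a ν b (Tr (-h) h) s ∧ s 0 = f} := ⟨_, rfl⟩
  have hdown : ∀ h ∈ H, ∀ h' ≤ h, h' ∈ H := by
    intro h hh h' hle
    rw [hH] at hh ⊢
    obtain ⟨s, hs, hs0⟩ := hh
    exact ⟨s, hs.mono fun ζ hζ => ⟨by linarith [hζ.1], by linarith [hζ.2]⟩, hs0⟩
  obtain ⟨h₀, hh₀, hh₀H⟩ : ∃ h₀ : ℝ, 0 < h₀ ∧ h₀ ∈ H := by
    obtain ⟨ε, Φ, hε, hΦ⟩ := loc_fam (b := b) hBC 0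
    rw [zero_smul, add_zero] at hΦ
    refine ⟨ε, hε, ?_⟩
    rw [hH]
    refine ⟨Φ f, (hΦ f hf).2.mono fun ζ hζ => ?_, (hΦ f hf).1⟩
    show |ζ.im - (0 : ℂ).im| < ε
    rw [Complex.zero_im, sub_zero, abs_lt]
    exact hζ
  have hall : ∀ h : ℝ, h ∈ H := by
    by_contra hcon
    push Not at hcon
    obtain ⟨h₁, hh₁⟩ := hcon
    have hbd : BddAbove H := ⟨h₁, fun h hh => by
      by_contra hlt
      exact hh₁ (hdown h hh h₁ (not_le.1 hlt).le)⟩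
    obtain ⟨m, hm⟩ : ∃ m, m = sSup H := ⟨_, rfl⟩
    have hm0 : h₀ ≤ m := by
      rw [hm]
      exact le_csSup hbd hh₀H
    have hlt : ∀ h < m, h ∈ H := by
      intro h hh
      rw [hm] at hh
      obtain ⟨h', hh', hlt'⟩ := exists_lt_of_lt_csSup ⟨h₀, hh₀H⟩ hh
      exact hdown h' hh' h hlt'.le
    obtain ⟨ε₁, hε₁, h1⟩ := step S hBC (b := b) m
    obtain ⟨ε₂, hε₂, h2⟩ := step S hBC (b := b) (-m)
    obtain ⟨η, hη, hη1, hη2, hηm⟩ : ∃ η : ℝ, 0 < η ∧ η < ε₁ ∧ η < ε₂ ∧ η < m := by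
      have hmp : 0 < min (min ε₁ ε₂) m := lt_min (lt_min hε₁ hε₂) (by linarith)
      refine ⟨min (min ε₁ ε₂) m / 2, half_pos hmp, ?_, ?_, ?_⟩
      · have := (min_le_left (min ε₁ ε₂) m).trans (min_le_left _ _)
        linarith
      · have := (min_le_left (min ε₁ ε₂) m).trans (min_le_right _ _)
        linarith
      · have := min_le_right (min ε₁ ε₂) m
        linarith
    have h3 := hlt (m - η) (by linarith)
    rw [hH] at h3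
    obtain ⟨s, hs, hs0⟩ := h3
    obtain ⟨t, ht, hts⟩ := h1 _ _ s hs (by
      rw [max_lt_iff]
      constructor
      · rw [lt_min_iff]
        exact ⟨by linarith, by linarith⟩
      · rw [lt_min_iff]
        exact ⟨by linarith, by linarith⟩)
    have ht' : LS X Λ u a ν b (Tr (-(m - η)) (m + ε₁)) t := ht.mono fun ζ hζ => ⟨lt_of_le_of_lt (min_le_left _ _) hζ.1, lt_of_lt_of_le hζ.2 (le_max_right _ _)⟩
    obtain ⟨t', ht2, hts'⟩ := h2 _ _ t ht' (by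
      rw [max_lt_iff]
      constructor
      · rw [lt_min_iff]
        exact ⟨by linarith, by linarith⟩
      · rw [lt_min_iff]
        exact ⟨by linarith, by linarith⟩)
    have h4 : m + η ∈ H := by
      rw [hH]
      refine ⟨t', ht2.mono fun ζ hζ => ⟨lt_of_le_of_lt (min_le_right _ _) (by linarith [hζ.1]), lt_of_lt_of_le (by linarith [hζ.2]) (le_max_left _ _)⟩, ?_⟩
      have h0 : (0 : ℂ) ∈ Tr (-(m - η)) (m - η) := ⟨by rw [Complex.zero_im]; linarith, by rw [Complex.zero_im]; linarith⟩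
      have h0' : (0 : ℂ) ∈ Tr (-(m - η)) (m + ε₁) := ⟨h0.1, h0.2.trans (by linarith)⟩
      rw [hts' 0 h0', hts 0 h0, hs0]
    have h5 := le_csSup hbd h4
    rw [← hm] at h5
    linarith
  rw [hH] at hall
  choose s hs hs0 using hall
  -- the families agree
  have hag : ∀ h h' : ℝ, 0 < h → h ≤ h' → ∀ ζ ∈ Tr (-h) h, s h' ζ = s h ζ := by
    intro h h' hh hle
    exact uniq S hBC (tr_open _ _) (tr_conv _ _).isPreconnected ((hs h').mono fun ζ hζ => ⟨by linarith [hζ.1], by linarith [hζ.2]⟩) (hs h)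
      (ζ₁ := 0) ⟨by rw [Complex.zero_im]; linarith, by rw [Complex.zero_im]; exact hh⟩ (by rw [hs0, hs0])
  obtain ⟨Ψ, hΨ⟩ : ∃ Ψ : ℂ → ℂ → MN N, Ψ = fun ζ => s (|ζ.im| + 1) ζ := ⟨_, rfl⟩
  have hmem : ∀ ζ : ℂ, ζ ∈ Tr (-(|ζ.im| + 1)) (|ζ.im| + 1) := fun ζ => ⟨by linarith [neg_abs_le ζ.im], by linarith [le_abs_self ζ.im]⟩
  have hΨe : ∀ (ζ : ℂ) (h : ℝ), |ζ.im| + 1 ≤ h → Ψ ζ = s h ζ := fun ζ h hle => by
    rw [hΨ]
    exact (hag _ h (by positivity) hle ζ (hmem ζ)).symm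
  have hL : LS X Λ u a ν b Set.univ Ψ := by
    intro ζ _
    have h1 : LS X Λ u a ν b (Tr (-(|ζ.im| + 1)) (|ζ.im| + 1)) Ψ := by
      refine ((hs (|ζ.im| + 2)).mono fun ζ' hζ' => ⟨by linarith [hζ'.1], by linarith [hζ'.2]⟩).congr fun ζ' hζ' => ?_
      filter_upwards [(tr_open (-(|ζ.im| + 1)) (|ζ.im| + 1)).mem_nhds hζ'] with ζ'' h2
      have h3 : |ζ''.im| < |ζ.im| + 1 := abs_lt.2 ⟨h2.1, h2.2⟩
      exact hΨe ζ'' (|ζ.im| + 2) (by linarith)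
    exact h1 ζ (hmem ζ)
  refine ⟨Ψ, fun z => ?_, ⟨fun ζ => (hL ζ (Set.mem_univ ζ)).1, fun ζ z => (hL ζ (Set.mem_univ ζ)).2 z⟩⟩
  have h1 := hΨe 0 1 (by simp)
  rw [h1, hs0]

end Pool.Agent.G4.E
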