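import Pool.Agent.G3.E.Defs
import Pool.Agent.G4.A.Shts

/-!
# G4 E GDx: the global sheets from the sheets over `⊤`

`Tb b ⊤ = univ`; `sht_finite` at `b = 0`; `ex`: `exists_sht` at `b = y`.
-/

set_option autoImplicit false

open Topology Filter Metric

namespace Pool.Agent.G4.E

open Pool.Agent.H36.BP (EN fs wd)
open Pool.Agent.H14.PP (IsCone CurveAt Tan)
open Pool.Agent.H62.EF (MN pr)
open Pool.Agent.AD (Vd Chart Charts IsGerm)
open Pool.Agent.TG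
open Pool.Agent.G3.A (Ba Hc Dec Sepa Tht Frm NL Lm CRL Tb ToE CE Sht)
open Pool.Agent.G3.E (Hol GD MG BC)
open Pool.Agent.G4.A

variable {N k : ℕ} {X : Set (EN N)} {Λ : AddSubgroup (Vd (k + 1))} {u : EN N → Vd (k + 1)} {D B Bad : Set (Vd (k + 1))} {a : Vd (k + 1)}
  {Γ : AddSubgroup (Vd (k + 1))} {J rW : ℕ} {W : Fin rW → Vd (k + 1) →L[ℂ] ℂ} {α : Fin J → VForm X Λ u} {c₀ C₀ ρ δ : ℝ}

theorem gd_of_sht (S : DA X Λ u D B Bad a Γ W α c₀ C₀ ρ δ) (hCE : ∀ b, CE X Λ u a b ⊤) (hh : ∀ φ : Vd (k + 1) → MN N, Sht X Λ u D a (Tb 0 ⊤) φ → Hol X Λ u D φ) :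
    ∃ SS : Set (Vd (k + 1) → MN N), GD X Λ u D a SS := by
  have hT : ∀ b y : Vd (k + 1), y ∈ Tb b (⊤ : Submodule ℝ (Vd (k + 1))) := fun b y => (Submodule.mem_top : y - b ∈ (⊤ : Submodule ℝ (Vd (k + 1))))
  obtain ⟨SS, hfin, hsht, hall, -⟩ := sht_finite S (hCE 0)
  refine ⟨SS, hfin, fun φ hφ => hh φ (hsht φ hφ), fun φ hφ y => (hsht φ hφ).line y (hT 0 y), fun y f hf => ?_,
    fun φ hφ l hl => ?_⟩
  · obtain ⟨ψ, hψ, hψf⟩ := exists_sht S (hCE y) hf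
    have h1 : Sht X Λ u D a (Tb 0 ⊤) ψ := by
      have e : Tb (0 : Vd (k + 1)) (⊤ : Submodule ℝ (Vd (k + 1))) = Tb y ⊤ := by
        ext z
        exact ⟨fun _ => hT y z, fun _ => hT 0 z⟩
      rw [e]
      exact hψ
    obtain ⟨φ, hφ, he⟩ := hall ψ h1
    exact ⟨φ, hφ, fun z => by rw [← he _ (hT 0 _), hψf z]⟩
  · obtain ⟨φ', hφ', he⟩ := hall _ (sht_add (hsht φ hφ) S.lg hl Submodule.mem_top)
    have e : (fun y => φ (y + l)) = φ' := funext fun y => he y (hT 0 y)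
    rw [e]
    exact hφ'

end Pool.Agent.G4.E
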