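import Mathlib

/-!
# G4 E Mnr: homogeneous linear systems with analytic coefficients

`minors`: the system `∑ s, q s * h i s x = 0` (`i : ι`, `M + 1` unknowns) has a solution `q ≠ 0` for every `x ∈ U`.  Then there is an analytic solution which is not identically `0`.

Proof.  Let `r ≤ M` be the largest number such that some minor of size `r` is not identically `0` on `U`; `rows`, `cols` such a minor and `s₀ ∉ range cols`.  The solution is the vector of the cofactors of the first row in
the matrix with the columns `s₀, cols` and the rows `i, rows`; its determinant is identically `0`.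
-/

set_option autoImplicit false

open Topology Filter

namespace Pool.Agent.G4.E

/-- the matrix with the given rows and columns -/
private def mt {E ι : Type*} {M : ℕ} (h : ι → Fin (M + 1) → E → ℂ) {r : ℕ} (rows : Fin r → ι) (cols : Fin r → Fin (M + 1)) (x : E) : Matrix (Fin r) (Fin r) ℂ :=
  Matrix.of fun a b => h (rows a) (cols b) x

private theorem det_an {E : Type*} [NormedAddCommGroup E] [NormedSpace ℂ E] {U : Set E} {ι : Type*} {M : ℕ} {h : ι → Fin (M + 1) → E → ℂ}
    (hh : ∀ i s, AnalyticOnNhd ℂ (h i s) U) {r : ℕ} (rows : Fin r → ι) (cols : Fin r → Fin (M + 1)) : AnalyticOnNhd ℂ (fun x => (mt h rows cols x).det) U := by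
  intro x hx
  simp only [Matrix.det_apply]
  refine Finset.analyticAt_fun_sum _ fun σ _ => ?_
  have h1 : AnalyticAt ℂ (fun x => ∏ i, mt h rows cols x (σ i) i) x := by
    refine Finset.analyticAt_fun_prod _ fun i _ => ?_
    exact hh _ _ x hx
  have h2 : (fun x => Equiv.Perm.sign σ • ∏ i, mt h rows cols x (σ i) i) = fun x => ((Equiv.Perm.sign σ : ℤ) : ℂ) * ∏ i, mt h rows cols x (σ i) i := by
    funext x
    rw [Units.smul_def, zsmul_eq_mul]
  rw [h2]
  exact analyticAt_const.mul h1

theorem minors {E : Type*} [NormedAddCommGroup E] [NormedSpace ℂ E] {U : Set E} (hne : U.Nonempty) {ι : Type*} {M : ℕ} {h : ι → Fin (M + 1) → E → ℂ}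
    (hh : ∀ i s, AnalyticOnNhd ℂ (h i s) U) (hk : ∀ x ∈ U, ∃ q : Fin (M + 1) → ℂ, q ≠ 0 ∧ ∀ i, ∑ s, q s * h i s x = 0) :
    ∃ q : Fin (M + 1) → E → ℂ, (∀ s, AnalyticOnNhd ℂ (q s) U) ∧ (∀ x ∈ U, ∀ i, ∑ s, q s x * h i s x = 0) ∧ ∃ s, ∃ x ∈ U, q s x ≠ 0 := by
  classical
  set P : ℕ → Prop := fun r => ∃ (rows : Fin r → ι) (cols : Fin r → Fin (M + 1)), ∃ x ∈ U, (mt h rows cols x).det ≠ 0 with hP
  have h0 : P 0 := by
    obtain ⟨x, hx⟩ := hne
    exact ⟨Fin.elim0, Fin.elim0, x, hx, by simp⟩
  have hM : ¬ P (M + 1) := by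
    rintro ⟨rows, cols, x, hx, hdet⟩
    obtain ⟨q, hq, hqi⟩ := hk x hx
    -- `cols` is injective
    have hinj : Function.Injective cols := by
      intro a b hab
      by_contra hne
      apply hdet
      refine Matrix.det_zero_of_column_eq hne fun i => ?_
      show h (rows i) (cols a) x = h (rows i) (cols b) x
      rw [hab]
    have hbij : Function.Bijective cols := Finite.injective_iff_bijective.1 hinj
    apply hq
    have h1 : (mt h rows cols x).mulVec (fun b => q (cols b)) = 0 := by
      funext a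
      show ∑ b, h (rows a) (cols b) x * q (cols b) = 0
      rw [← hqi (rows a), ← hbij.sum_comp (fun s => q s * h (rows a) s x)]
      exact Finset.sum_congr rfl fun b _ => mul_comm _ _
    have h2 := Matrix.eq_zero_of_mulVec_eq_zero hdet h1
    funext s
    obtain ⟨b, rfl⟩ := hbij.2 s
    exact congrFun h2 b
  obtain ⟨r, hrM, hr, hr1⟩ : ∃ r, r ≤ M ∧ P r ∧ ¬ P (r + 1) := by
    by_contra hcon
    push Not at hcon
    apply hM
    have : ∀ n, n ≤ M + 1 → P n := by
      intro n
      induction n with
      | zero => exact fun _ => h0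
      | succ n ih => exact fun hn => hcon n (by omega) (ih (by omega))
    exact this _ le_rfl
  obtain ⟨rows, cols, x₁, hx₁, hdet⟩ := hr
  obtain ⟨s₀, hs₀⟩ : ∃ s₀ : Fin (M + 1), ∀ b, cols b ≠ s₀ := by
    by_contra hcon
    push Not at hcon
    have h1 : Function.Surjective cols := fun s => by
      obtain ⟨b, hb⟩ := hcon s
      exact ⟨b, hb⟩
    have h2 := Fintype.card_le_of_surjective cols h1
    simp only [Fintype.card_fin] at h2
    omega
  set cols' : Fin (r + 1) → Fin (M + 1) := Fin.cons s₀ cols with hcols'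
  -- the cofactors
  set c : Fin (r + 1) → E → ℂ := fun b x => (-1) ^ (b : ℕ) * (mt h rows (fun a => cols' (b.succAbove a)) x).det with hc
  have hca : ∀ b, AnalyticOnNhd ℂ (c b) U := fun b x hx => analyticAt_const.mul (det_an hh rows (fun a => cols' (b.succAbove a)) x hx)
  have hexp : ∀ x ∈ U, ∀ i, ∑ b, c b x * h i (cols' b) x = 0 := by
    intro x hx i
    have h1 : (mt h (Fin.cons i rows : Fin (r + 1) → ι) cols' x).det = 0 := by
      by_contra hne
      exact hr1 ⟨_, _, x, hx, hne⟩
    rw [Matrix.det_succ_row_zero] at h1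
    rw [← h1]
    refine Finset.sum_congr rfl fun b _ => ?_
    have h2 : (mt h (Fin.cons i rows : Fin (r + 1) → ι) cols' x).submatrix Fin.succ b.succAbove = mt h rows (fun a => cols' (b.succAbove a)) x := by
      ext a a'
      show h ((Fin.cons i rows : Fin (r + 1) → ι) a.succ) (cols' (b.succAbove a')) x = h (rows a) (cols' (b.succAbove a')) x
      rw [Fin.cons_succ]
    rw [h2]
    show (-1) ^ (b : ℕ) * (mt h rows (fun a => cols' (b.succAbove a)) x).det * h i (cols' b) x = (-1) ^ (b : ℕ) * h ((Fin.cons i rows : Fin (r + 1) → ι) 0) (cols' b) x * _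
    rw [Fin.cons_zero]
    ring
  refine ⟨fun s x => ∑ b ∈ Finset.univ.filter fun b => cols' b = s, c b x, fun s x hx => ?_, fun x hx i => ?_, s₀, x₁, hx₁, ?_⟩
  · exact Finset.analyticAt_fun_sum _ fun b _ => hca b x hx
  · rw [← hexp x hx i, ← Finset.sum_fiberwise_of_maps_to (s := Finset.univ) (t := Finset.univ) (g := cols') (fun _ _ => Finset.mem_univ _)]
    refine Finset.sum_congr rfl fun s _ => ?_
    rw [Finset.sum_mul]
    refine Finset.sum_congr rfl fun b hb => ?_
    rw [(Finset.mem_filter.1 hb).2]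
  · have h1 : (Finset.univ.filter fun b => cols' b = s₀) = {0} := by
      ext b
      simp only [Finset.mem_filter, Finset.mem_univ, true_and, Finset.mem_singleton]
      refine ⟨fun hb => ?_, fun hb => ?_⟩
      · refine Fin.cases (fun _ => rfl) (fun a ha => ?_) b hb
        rw [hcols', Fin.cons_succ] at ha
        exact absurd ha (hs₀ a)
      · rw [hb, hcols', Fin.cons_zero]
    show ∑ b ∈ Finset.univ.filter fun b => cols' b = s₀, c b x₁ ≠ 0
    rw [h1, Finset.sum_singleton]
    show (-1) ^ ((0 : Fin (r + 1)) : ℕ) * (mt h rows (fun a => cols' ((0 : Fin (r + 1)).succAbove a)) x₁).det ≠ 0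
    have h2 : (fun a => cols' ((0 : Fin (r + 1)).succAbove a)) = cols := by
      funext a
      rw [Fin.succAbove_zero, hcols', Fin.cons_succ]
    rw [h2]
    simpa using hdet

end Pool.Agent.G4.E
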