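import Mathlib

/-!
# G4 E Mom: a function on a circle whose moments vanish

`mom_zero`: `f` continuous on the circle `‖w‖ = r` with `∮ w ^ j * f w = 0` for all `j`, `k` entire: `∮ k w * f w = 0` (the Taylor series of `k` converges uniformly on the circle).
`mom_quot`: `h`, `p` entire, `h` has no zeros on the circle, the moments of `p / h` vanish: then the Cauchy integral `G` of `p / h` satisfies `h * G = p` in the disc.
-/

set_option autoImplicit false

open Topology Filter Metric

namespace Pool.Agent.G4.E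

theorem mom_zero {r : ℝ} (hr : 0 < r) {f : ℂ → ℂ} (hf : ContinuousOn f (sphere 0 r)) (h0 : ∀ j : ℕ, (∮ w in C(0, r), w ^ j * f w) = 0) {k : ℂ → ℂ} (hk : Differentiable ℂ k) :
    (∮ w in C(0, r), k w * f w) = 0 := by
  -- the partial sums
  obtain ⟨p, hp⟩ : ∃ p : FormalMultilinearSeries ℂ ℂ ℂ, HasFPowerSeriesOnBall k p 0 ⊤ := ⟨_, hk.hasFPowerSeriesOnBall 0 one_pos⟩
  have hps : ∀ (n : ℕ) (w : ℂ), p.partialSum n w = ∑ i ∈ Finset.range n, p.coeff i * w ^ i := by
    intro n w
    unfold FormalMultilinearSeries.partialSum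
    refine Finset.sum_congr rfl fun i _ => ?_
    rw [FormalMultilinearSeries.apply_eq_pow_smul_coeff, smul_eq_mul, mul_comm]
  have hz : ∀ n : ℕ, (∮ w in C(0, r), p.partialSum n w * f w) = 0 := by
    intro n
    have h1 : ∀ w, p.partialSum n w * f w = ∑ i ∈ Finset.range n, p.coeff i * (w ^ i * f w) := by
      intro w
      rw [hps, Finset.sum_mul]
      exact Finset.sum_congr rfl fun i _ => by ring
    simp only [h1]
    rw [circleIntegral.integral_fun_sum]
    · refine Finset.sum_eq_zero fun i _ => ?_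
      rw [circleIntegral.integral_const_mul, h0 i, mul_zero]
    · intro i _
      refine ContinuousOn.circleIntegrable hr.le ?_
      exact continuousOn_const.mul ((by fun_prop : ContinuousOn (fun z : ℂ => z ^ i) _).mul hf)
  obtain ⟨C, hC⟩ := (isCompact_sphere (0 : ℂ) r).exists_bound_of_continuousOn hf
  have hC0 : 0 ≤ C := by
    have h1 := hC (r : ℂ) (by simp [abs_of_pos hr])
    exact (norm_nonneg _).trans h1
  have hu := hp.tendstoUniformlyOn' (r' := ⟨r + 1, by linarith⟩) (ENNReal.coe_lt_top)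
  -- small
  by_contra hne
  have hpos : 0 < ‖∮ w in C(0, r), k w * f w‖ := norm_pos_iff.2 hne
  obtain ⟨ε, hε, hε'⟩ : ∃ ε : ℝ, 0 < ε ∧ 2 * Real.pi * r * (ε * C) < ‖∮ w in C(0, r), k w * f w‖ := by
    refine ⟨‖∮ w in C(0, r), k w * f w‖ / (2 * (2 * Real.pi * r * C + 1)), by positivity, ?_⟩
    have h1 : 0 < 2 * Real.pi * r * C + 1 := by positivity
    rw [show 2 * Real.pi * r * (‖∮ w in C(0, r), k w * f w‖ / (2 * (2 * Real.pi * r * C + 1)) * C) =
      ‖∮ w in C(0, r), k w * f w‖ * ((2 * Real.pi * r * C) / (2 * (2 * Real.pi * r * C + 1))) by field_simp]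
    refine mul_lt_of_lt_one_right hpos ?_
    rw [div_lt_one (by positivity)]
    nlinarith [Real.pi_pos, mul_nonneg (mul_nonneg Real.pi_pos.le hr.le) hC0]
  obtain ⟨n, hn⟩ := ((Metric.tendstoUniformlyOn_iff.1 hu) ε hε).exists
  have h2 : (∮ w in C(0, r), k w * f w) = ∮ w in C(0, r), (k w - p.partialSum n w) * f w := by
    have h3 : (fun w => (k w - p.partialSum n w) * f w) = fun w => k w * f w - p.partialSum n w * f w := by
      funext w
      ring
    rw [h3, circleIntegral.integral_sub, hz n, sub_zero]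
    · exact ContinuousOn.circleIntegrable hr.le (hk.continuous.continuousOn.mul hf)
    · refine ContinuousOn.circleIntegrable hr.le (ContinuousOn.mul ?_ hf)
      have h4 : p.partialSum n = fun w => ∑ i ∈ Finset.range n, p.coeff i * w ^ i := funext (hps n)
      rw [h4]
      fun_prop
  have h3 : ‖∮ w in C(0, r), (k w - p.partialSum n w) * f w‖ ≤ 2 * Real.pi * r * (ε * C) := by
    refine circleIntegral.norm_integral_le_of_norm_le_const hr.le fun w hw => ?_
    rw [norm_mul]
    have hwb : w ∈ ball (0 : ℂ) (r + 1) := by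
      rw [mem_ball]
      rw [mem_sphere] at hw
      linarith
    have h5 := hn w hwb
    rw [sub_zero, dist_eq_norm] at h5
    exact mul_le_mul h5.le (hC w hw) (norm_nonneg _) hε.le
  rw [← h2] at h3
  linarith

theorem mom_quot {r : ℝ} (hr : 0 < r) {h p : ℂ → ℂ} (hh : Differentiable ℂ h) (hp : Differentiable ℂ p) (hne : ∀ w ∈ sphere (0 : ℂ) r, h w ≠ 0)
    (h0 : ∀ j : ℕ, (∮ w in C(0, r), w ^ j * (p w / h w)) = 0) {z : ℂ} (hz : z ∈ ball (0 : ℂ) r) :
    h z * ((2 * Real.pi * Complex.I)⁻¹ * ∮ w in C(0, r), (w - z)⁻¹ * (p w / h w)) = p z := by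
  have hf : ContinuousOn (fun w => p w / h w) (sphere 0 r) := hp.continuous.continuousOn.div hh.continuous.continuousOn hne
  have hzw : ∀ w ∈ sphere (0 : ℂ) r, w - z ≠ 0 := by
    intro w hw h1
    rw [sub_eq_zero.1 h1, mem_sphere] at hw
    rw [mem_ball] at hz
    linarith
  have hd : Differentiable ℂ (dslope h z) := by
    rw [← differentiableOn_univ, Complex.differentiableOn_dslope Filter.univ_mem]
    exact hh.differentiableOn
  have h1 := mom_zero hr hf h0 hd
  have h2 : ∀ w ∈ sphere (0 : ℂ) r, dslope h z w * (p w / h w) = (w - z)⁻¹ * p w - h z * ((w - z)⁻¹ * (p w / h w)) := by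
    intro w hw
    have h3 := sub_smul_dslope h z w
    rw [smul_eq_mul] at h3
    have h4 : dslope h z w = (w - z)⁻¹ * (h w - h z) := by
      rw [← h3, ← mul_assoc, inv_mul_cancel₀ (hzw w hw), one_mul]
    rw [h4]
    have h5 := hne w hw
    field_simp
  have hc1 : ContinuousOn (fun w => (w - z)⁻¹ * p w) (sphere 0 r) := by
    refine ContinuousOn.mul (ContinuousOn.inv₀ (by fun_prop) hzw) hp.continuous.continuousOn
  have hc2 : ContinuousOn (fun w => (w - z)⁻¹ * (p w / h w)) (sphere 0 r) := by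
    refine ContinuousOn.mul (ContinuousOn.inv₀ (by fun_prop) hzw) hf
  have h3 : (∮ w in C(0, r), dslope h z w * (p w / h w)) = (∮ w in C(0, r), (w - z)⁻¹ * p w) - h z * ∮ w in C(0, r), (w - z)⁻¹ * (p w / h w) := by
    have h6 : CircleIntegrable (fun w => h z * ((w - z)⁻¹ * (p w / h w))) 0 r := ContinuousOn.circleIntegrable hr.le (continuousOn_const.mul hc2)
    rw [← circleIntegral.integral_const_mul, ← circleIntegral.integral_sub (ContinuousOn.circleIntegrable hr.le hc1) h6]
    exact circleIntegral.integral_congr hr.le h2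
  have h4 : (2 * Real.pi * Complex.I)⁻¹ * (∮ w in C(0, r), (w - z)⁻¹ * p w) = p z := by
    have h5 := Complex.two_pi_I_inv_smul_circleIntegral_sub_inv_smul_of_differentiable_on_off_countable (f := p) (c := (0 : ℂ)) (R := r) (w := z) (s := ∅)
      Set.countable_empty hz hp.continuous.continuousOn (fun x _ => hp x)
    simpa only [smul_eq_mul] using h5
  rw [h3, sub_eq_zero] at h1
  calc h z * ((2 * Real.pi * Complex.I)⁻¹ * ∮ w in C(0, r), (w - z)⁻¹ * (p w / h w)) = (2 * Real.pi * Complex.I)⁻¹ * (h z * ∮ w in C(0, r), (w - z)⁻¹ * (p w / h w)) := by ring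
    _ = (2 * Real.pi * Complex.I)⁻¹ * (∮ w in C(0, r), (w - z)⁻¹ * p w) := by rw [← h1]
    _ = p z := h4

end Pool.Agent.G4.E
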