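import Pool.Agent.G3.C.EDefs
import Pool.Agent.G3.C.LL
import Pool.Agent.H22.HF.Par
import Pool.Agent.G4.E.Mnr
import Pool.Agent.G4.E.Mom
import Pool.Agent.TG.Rm

/-!
# G4 E MerC: a meromorphic lift, local form

`φ : ℂ^(k+1) → ℙ^N` is, on every line `y + ℂ a` with `y` near `y₀`, an entire curve `pr (F z)`; on the circle `‖w‖ = r` the normalised lift `nv v (φ (y + w a))` is analytic in `(y, w)`, and it has at most `M` poles in the disc.
Then `φ` has near `y₀` an analytic lift which is not identically `0`.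

Proof.  The moments `∮ w ^ (j + s) * nv v (φ (y + w a)) i` are analytic in `y`, and for every `y` there is `q : Fin (M + 1) → ℂ`, not `0`, with `∑ s, q s * moment = 0` for all `i`, `j` (the coefficients of the polynomial of the poles).
`minors` gives an analytic solution `Q s y`, not identically `0`; `G (y, z) = (2 π i)⁻¹ ∮ (w - z)⁻¹ (∑ s, Q s y * w ^ s) nv v (φ (y + w a))`.  By `mom_quot`: `⟨v, F z⟩ G (y, z) = (∑ s, Q s y * z ^ s) F z`.
For a small `z₁` take `y ↦ G (y - z₁ a, z₁)`.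
-/

set_option autoImplicit false

open Topology Filter Metric

namespace Pool.Agent.G4.E

open Pool.Agent.H36.BP (EN)
open Pool.Agent.H62.EF (MN pr)
open Pool.Agent.AD (Vd)
open Pool.Agent.G3.C (nv nd nv_pr pr_iff_minors)

variable {N k : ℕ}

/-- the coordinates of the Cauchy integral -/
private noncomputable def ci (v : EN N) (φ : Vd (k + 1) → MN N) (a : Vd (k + 1)) (r : ℝ) {M : ℕ} (Q : Fin (M + 1) → Vd (k + 1) → ℂ) (y : Vd (k + 1)) (z : ℂ) (i : Fin (N + 1)) : ℂ :=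
  (2 * Real.pi * Complex.I)⁻¹ * ∮ w in C(0, r), (w - z)⁻¹ * ((∑ s, Q s y * w ^ (s : ℕ)) * nv v (φ (y + w • a)) i)

private theorem sphere_ne {r : ℝ} {z w : ℂ} (hz : z ∈ ball (0 : ℂ) r) (hw : w ∈ sphere (0 : ℂ) r) : w - z ≠ 0 := by
  intro h1
  rw [sub_eq_zero.1 h1, mem_sphere] at hw
  rw [mem_ball] at hz
  linarith

private theorem en_coord (i : Fin (N + 1)) {E : Type*} [NormedAddCommGroup E] [NormedSpace ℂ E] {f : E → EN N} {x : E} (hf : AnalyticAt ℂ f x) :
    AnalyticAt ℂ (fun y => f y i) x := ((EuclideanSpace.proj (𝕜 := ℂ) i : EN N →L[ℂ] ℂ).analyticAt _).comp hf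

/-- the polynomial of the poles annihilates the moments -/
private theorem kern {F : ℂ → EN N} (hF : Differentiable ℂ F) {v : EN N} {r : ℝ} (hr : 0 < r) (hne : ∀ w ∈ sphere (0 : ℂ) r, (inner ℂ v (F w) : ℂ) ≠ 0) {M : ℕ} {q : Polynomial ℂ} (hq0 : q ≠ 0)
    (hqM : q.natDegree ≤ M) {g : ℂ → ℂ} (hg : Differentiable ℂ g) (hg0 : ∀ z ∈ closedBall (0 : ℂ) r, g z ≠ 0) (hqg : ∀ z, (inner ℂ v (F z) : ℂ) = q.eval z * g z) :
    ∃ c : Fin (M + 1) → ℂ, c ≠ 0 ∧ ∀ (i : Fin (N + 1)) (j : ℕ), ∑ s, c s * (∮ w in C(0, r), w ^ (j + (s : ℕ)) * ((inner ℂ v (F w) : ℂ)⁻¹ * F w i)) = 0 := by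
  have hFi : ∀ i, Differentiable ℂ fun w => F w i := fun i => (EuclideanSpace.proj (𝕜 := ℂ) i : EN N →L[ℂ] ℂ).differentiable.comp hF
  have hh : Differentiable ℂ fun w => (inner ℂ v (F w) : ℂ) := (innerSL ℂ v).differentiable.comp hF
  refine ⟨fun s => q.coeff s, fun h0 => hq0 ?_, fun i j => ?_⟩
  · ext s
    rw [Polynomial.coeff_zero]
    by_cases hs : s < M + 1
    · exact congrFun h0 ⟨s, hs⟩
    · exact Polynomial.coeff_eq_zero_of_natDegree_lt (by omega)
  · have hcont : ContinuousOn (fun w => (inner ℂ v (F w) : ℂ)⁻¹ * F w i) (sphere 0 r) :=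
      (ContinuousOn.inv₀ hh.continuous.continuousOn hne).mul (hFi i).continuous.continuousOn
    have h1 : ∑ s : Fin (M + 1), q.coeff s * (∮ w in C(0, r), w ^ (j + (s : ℕ)) * ((inner ℂ v (F w) : ℂ)⁻¹ * F w i)) =
        ∮ w in C(0, r), ∑ s : Fin (M + 1), q.coeff s * (w ^ (j + (s : ℕ)) * ((inner ℂ v (F w) : ℂ)⁻¹ * F w i)) := by
      rw [circleIntegral.integral_fun_sum]
      · refine Finset.sum_congr rfl fun s _ => ?_
        rw [circleIntegral.integral_const_mul]
      · intro s _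
        refine ContinuousOn.circleIntegrable hr.le ?_
        exact continuousOn_const.mul ((by fun_prop : ContinuousOn (fun z : ℂ => z ^ (j + (s : ℕ))) _).mul hcont)
    rw [h1]
    have h2 : ∀ w ∈ sphere (0 : ℂ) r, ∑ s : Fin (M + 1), q.coeff s * (w ^ (j + (s : ℕ)) * ((inner ℂ v (F w) : ℂ)⁻¹ * F w i)) = w ^ j * (F w i / g w) := by
      intro w hw
      have h3 : ∑ s : Fin (M + 1), q.coeff s * w ^ (s : ℕ) = q.eval w := by
        rw [Polynomial.eval_eq_sum_range' (n := M + 1) (by omega), Finset.sum_range]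
      have h4 : ∑ s : Fin (M + 1), q.coeff s * (w ^ (j + (s : ℕ)) * ((inner ℂ v (F w) : ℂ)⁻¹ * F w i)) =
          (∑ s : Fin (M + 1), q.coeff s * w ^ (s : ℕ)) * (w ^ j * ((inner ℂ v (F w) : ℂ)⁻¹ * F w i)) := by
        rw [Finset.sum_mul]
        refine Finset.sum_congr rfl fun s _ => ?_
        rw [pow_add]
        ring
      have h5 := hne w hw
      rw [h4, h3, hqg w]
      rw [hqg w] at h5
      have h6 : q.eval w ≠ 0 := left_ne_zero_of_mul h5
      have h7 : g w ≠ 0 := right_ne_zero_of_mul h5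
      field_simp
    rw [circleIntegral.integral_congr hr.le h2]
    refine Complex.circleIntegral_eq_zero_of_differentiable_on_off_countable hr.le Set.countable_empty ?_ ?_
    · exact (by fun_prop : ContinuousOn (fun z : ℂ => z ^ j) _).mul ((hFi i).continuous.continuousOn.div hg.continuous.continuousOn hg0)
    · intro z hz
      exact (by fun_prop : DifferentiableAt ℂ (fun z : ℂ => z ^ j) z).mul ((hFi i z).div (hg z) (hg0 z (ball_subset_closedBall hz.1)))

theorem mer_core {φ : Vd (k + 1) → MN N} {a y₀ : Vd (k + 1)} (ha : ‖a‖ = 1) {r ε : ℝ} (hr : 0 < r) (hε : 0 < ε) {v : EN N} {M : ℕ}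
    (hF : ∀ y ∈ ball y₀ ε, ∃ F : ℂ → EN N, Differentiable ℂ F ∧ (∀ z, F z ≠ 0) ∧ (∀ z : ℂ, φ (y + z • a) = pr (F z)) ∧ (∀ w ∈ sphere (0 : ℂ) r, (inner ℂ v (F w) : ℂ) ≠ 0) ∧
      ∃ q : Polynomial ℂ, q ≠ 0 ∧ q.natDegree ≤ M ∧ ∃ g : ℂ → ℂ, Differentiable ℂ g ∧ (∀ z ∈ closedBall (0 : ℂ) r, g z ≠ 0) ∧ ∀ z, (inner ℂ v (F z) : ℂ) = q.eval z * g z)
    (hx : ∀ y ∈ ball y₀ ε, ∀ w ∈ sphere (0 : ℂ) r, AnalyticAt ℂ (fun p : Vd (k + 1) × ℂ => nv v (φ (p.1 + p.2 • a))) (y, w)) :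
    ∃ G : Vd (k + 1) → EN N, AnalyticAt ℂ G y₀ ∧ (∃ᶠ z in 𝓝 y₀, G z ≠ 0) ∧ ∀ᶠ z in 𝓝 y₀, G z ≠ 0 → φ z = pr (G z) := by
  classical
  choose! F hFd hF0 hFφ hFne q hq0 hqM g hgd hg0 hqg using hF
  have hnv : ∀ y ∈ ball y₀ ε, ∀ w ∈ sphere (0 : ℂ) r, nv v (φ (y + w • a)) = (inner ℂ v (F y w) : ℂ)⁻¹ • F y w := by
    intro y hy w hw
    rw [hFφ y hy w]
    exact nv_pr (hFne y hy w hw)
  -- the moments
  obtain ⟨Q, hQa, hQ0, s₁, y₁, hy₁, hQne⟩ := minors (U := ball y₀ ε) ⟨y₀, mem_ball_self hε⟩ (ι := Fin (N + 1) × ℕ) (M := M)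
    (h := fun i s y => ∮ w in C(0, r), w ^ (i.2 + (s : ℕ)) * nv v (φ (y + w • a)) i.1)
    (fun i s y hy => by
      refine Pool.Agent.H22.HF.analyticAt_circleIntegral (F := fun p : Vd (k + 1) × ℂ => p.2 ^ (i.2 + (s : ℕ)) * nv v (φ (p.1 + p.2 • a)) i.1) hr fun t ht => ?_
      have h1 : AnalyticAt ℂ (fun p : Vd (k + 1) × ℂ => p.2 ^ (i.2 + (s : ℕ))) (y, t) := analyticAt_snd.pow _
      exact h1.mul (en_coord i.1 (hx y hy t ht)))
    (fun y hy => by
      obtain ⟨c, hc0, hc⟩ := kern (hFd y hy) hr (hFne y hy) (hq0 y hy) (hqM y hy) (hgd y hy) (hg0 y hy) (hqg y hy)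
      refine ⟨c, hc0, fun i => ?_⟩
      refine Eq.trans ?_ (hc i.1 i.2)
      refine Finset.sum_congr rfl fun s _ => ?_
      have h1 : (∮ w in C(0, r), w ^ (i.2 + (s : ℕ)) * nv v (φ (y + w • a)) i.1) = ∮ w in C(0, r), w ^ (i.2 + (s : ℕ)) * ((inner ℂ v (F y w) : ℂ)⁻¹ * F y w i.1) :=
        circleIntegral.integral_congr hr.le fun w hw => by
          show w ^ (i.2 + (s : ℕ)) * nv v (φ (y + w • a)) i.1 = w ^ (i.2 + (s : ℕ)) * ((inner ℂ v (F y w) : ℂ)⁻¹ * F y w i.1)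
          rw [hnv y hy w hw]
          rfl
      show c s * (∮ w in C(0, r), w ^ (i.2 + (s : ℕ)) * nv v (φ (y + w • a)) i.1) = _
      rw [h1])
  -- the identity
  have hmain : ∀ y ∈ ball y₀ ε, ∀ z ∈ ball (0 : ℂ) r, ∀ i, (inner ℂ v (F y z) : ℂ) * ci v φ a r Q y z i = (∑ s, Q s y * z ^ (s : ℕ)) * F y z i := by
    intro y hy z hz i
    have hFi : Differentiable ℂ fun w => F y w i := (EuclideanSpace.proj (𝕜 := ℂ) i : EN N →L[ℂ] ℂ).differentiable.comp (hFd y hy)
    have hh : Differentiable ℂ fun w => (inner ℂ v (F y w) : ℂ) := (innerSL ℂ v).differentiable.comp (hFd y hy)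
    have hp : Differentiable ℂ fun w : ℂ => (∑ s, Q s y * w ^ (s : ℕ)) * F y w i := by
      refine Differentiable.mul ?_ hFi
      fun_prop
    have hcont : ContinuousOn (fun w => (inner ℂ v (F y w) : ℂ)⁻¹ * F y w i) (sphere 0 r) :=
      (ContinuousOn.inv₀ hh.continuous.continuousOn (hFne y hy)).mul hFi.continuous.continuousOn
    have h0 : ∀ j : ℕ, (∮ w in C(0, r), w ^ j * (((∑ s, Q s y * w ^ (s : ℕ)) * F y w i) / inner ℂ v (F y w))) = 0 := by
      intro j
      refine Eq.trans ?_ (hQ0 y hy (i, j))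
      have h2 : ∀ w ∈ sphere (0 : ℂ) r, w ^ j * (((∑ s, Q s y * w ^ (s : ℕ)) * F y w i) / inner ℂ v (F y w)) =
          ∑ s : Fin (M + 1), Q s y * (w ^ (j + (s : ℕ)) * nv v (φ (y + w • a)) i) := by
        intro w hw
        rw [hnv y hy w hw]
        show _ = ∑ s : Fin (M + 1), Q s y * (w ^ (j + (s : ℕ)) * ((inner ℂ v (F y w) : ℂ)⁻¹ * F y w i))
        rw [Finset.sum_mul, Finset.sum_div, Finset.mul_sum]
        refine Finset.sum_congr rfl fun s _ => ?_
        rw [pow_add, div_eq_mul_inv]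
        ring
      rw [circleIntegral.integral_congr hr.le h2, circleIntegral.integral_fun_sum]
      · refine Finset.sum_congr rfl fun s _ => ?_
        rw [circleIntegral.integral_const_mul]
      · intro s _
        refine ContinuousOn.circleIntegrable hr.le ?_
        refine continuousOn_const.mul ((by fun_prop : ContinuousOn (fun z : ℂ => z ^ (j + (s : ℕ))) _).mul (hcont.congr fun w hw => ?_))
        show nv v (φ (y + w • a)) i = _
        rw [hnv y hy w hw]
        rfl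
    have h1 := mom_quot hr hh hp (hFne y hy) h0 hz
    rw [← h1]
    congr 1
    unfold ci
    congr 1
    refine circleIntegral.integral_congr hr.le fun w hw => ?_
    show (w - z)⁻¹ * ((∑ s, Q s y * w ^ (s : ℕ)) * nv v (φ (y + w • a)) i) = (w - z)⁻¹ * (((∑ s, Q s y * w ^ (s : ℕ)) * F y w i) / inner ℂ v (F y w))
    rw [hnv y hy w hw]
    show (w - z)⁻¹ * ((∑ s, Q s y * w ^ (s : ℕ)) * ((inner ℂ v (F y w) : ℂ)⁻¹ * F y w i)) = _
    rw [div_eq_mul_inv]
    ring
  -- continuity of the Cauchy integral in `z`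
  have hcz : ∀ y ∈ ball y₀ ε, ∀ z ∈ ball (0 : ℂ) r, ∀ i, ContinuousAt (fun z => ci v φ a r Q y z i) z := by
    intro y hy z hz i
    have hFi : Differentiable ℂ fun w => F y w i := (EuclideanSpace.proj (𝕜 := ℂ) i : EN N →L[ℂ] ℂ).differentiable.comp (hFd y hy)
    have hh : Differentiable ℂ fun w => (inner ℂ v (F y w) : ℂ) := (innerSL ℂ v).differentiable.comp (hFd y hy)
    have hcont : ContinuousOn (fun w => (∑ s, Q s y * w ^ (s : ℕ)) * nv v (φ (y + w • a)) i) (sphere 0 r) := by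
      refine ContinuousOn.mul (by fun_prop) (ContinuousOn.congr ((ContinuousOn.inv₀ hh.continuous.continuousOn (hFne y hy)).mul hFi.continuous.continuousOn) fun w hw => ?_)
      show nv v (φ (y + w • a)) i = (inner ℂ v (F y w) : ℂ)⁻¹ * F y w i
      rw [hnv y hy w hw]
      rfl
    obtain ⟨R', hR'⟩ : ∃ R' : NNReal, (R' : ℝ) = r := ⟨⟨r, hr.le⟩, rfl⟩
    have h1 := hasFPowerSeriesOn_cauchy_integral (R := R') (f := fun w => (∑ s, Q s y * w ^ (s : ℕ)) * nv v (φ (y + w • a)) i) (c := (0 : ℂ))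
      (by rw [hR']; exact ContinuousOn.circleIntegrable hr.le hcont) (by rw [← NNReal.coe_pos, hR']; exact hr)
    have h2 : ContinuousOn (fun z => ci v φ a r Q y z i) (Metric.eball 0 (R' : ENNReal)) := by
      refine h1.continuousOn.congr fun z _ => ?_
      unfold ci
      simp only [smul_eq_mul, hR']
    refine h2.continuousAt (IsOpen.mem_nhds Metric.isOpen_eball ?_)
    rw [Metric.eball_coe, hR']
    exact hz
  -- the vector
  set G : Vd (k + 1) → ℂ → EN N := fun y z => WithLp.toLp 2 fun i => ci v φ a r Q y z i with hG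
  have hGi : ∀ y z i, G y z i = ci v φ a r Q y z i := fun y z i => rfl
  have hpr : ∀ y ∈ ball y₀ ε, ∀ z ∈ ball (0 : ℂ) r, G y z ≠ 0 → φ (y + z • a) = pr (G y z) := by
    intro y hy z hz hGz
    have hh : Differentiable ℂ fun w => (inner ℂ v (F y w) : ℂ) := (innerSL ℂ v).differentiable.comp (hFd y hy)
    have hFi : ∀ i, Differentiable ℂ fun w => F y w i := fun i => (EuclideanSpace.proj (𝕜 := ℂ) i : EN N →L[ℂ] ℂ).differentiable.comp (hFd y hy)
    rw [hFφ y hy z, eq_comm, pr_iff_minors hGz (hF0 y hy z)]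
    intro i j
    have hc : ContinuousAt (fun w => ci v φ a r Q y w i * F y w j - ci v φ a r Q y w j * F y w i) z :=
      ((hcz y hy z hz i).mul (hFi j z).continuousAt).sub ((hcz y hy z hz j).mul (hFi i z).continuousAt)
    have hiso : ∀ᶠ w in 𝓝[≠] z, (inner ℂ v (F y w) : ℂ) ≠ 0 := by
      rcases (hh.analyticAt z).eventually_eq_zero_or_eventually_ne_zero with h1 | h1
      · exfalso
        have h2 : AnalyticOnNhd ℂ (fun w => (inner ℂ v (F y w) : ℂ)) Set.univ := fun w _ => hh.analyticAt w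
        have h3 := h2.eqOn_zero_of_preconnected_of_eventuallyEq_zero isPreconnected_univ (Set.mem_univ z) h1 (Set.mem_univ (r : ℂ))
        exact hFne y hy (r : ℂ) (by simp [abs_of_pos hr]) h3
      · exact h1
    have hz0 : ∀ᶠ w in 𝓝[≠] z, ci v φ a r Q y w i * F y w j - ci v φ a r Q y w j * F y w i = 0 := by
      filter_upwards [hiso, mem_nhdsWithin_of_mem_nhds (isOpen_ball.mem_nhds hz)] with w hw hwb
      have e1 := hmain y hy w hwb i
      have e2 := hmain y hy w hwb j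
      have e3 : (inner ℂ v (F y w) : ℂ) * (ci v φ a r Q y w i * F y w j - ci v φ a r Q y w j * F y w i) = 0 := by
        linear_combination F y w j * e1 - F y w i * e2
      exact (mul_eq_zero.1 e3).resolve_left hw
    have t1 : Tendsto (fun w => ci v φ a r Q y w i * F y w j - ci v φ a r Q y w j * F y w i) (𝓝[≠] z) (𝓝 (ci v φ a r Q y z i * F y z j - ci v φ a r Q y z j * F y z i)) :=
      hc.tendsto.mono_left nhdsWithin_le_nhds
    have t2 : Tendsto (fun w => ci v φ a r Q y w i * F y w j - ci v φ a r Q y w j * F y w i) (𝓝[≠] z) (𝓝 0) :=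
      tendsto_const_nhds.congr' (hz0.mono fun w hw => hw.symm)
    exact tendsto_nhds_unique t1 t2
  have hGan : ∀ y ∈ ball y₀ ε, ∀ z ∈ ball (0 : ℂ) r, AnalyticAt ℂ (fun y => G y z) y := by
    intro y hy z hz
    refine Pool.Agent.TG.an_of_coord fun i => ?_
    show AnalyticAt ℂ (fun y => ci v φ a r Q y z i) y
    unfold ci
    refine analyticAt_const.mul ?_
    refine Pool.Agent.H22.HF.analyticAt_circleIntegral (F := fun p : Vd (k + 1) × ℂ => (p.2 - z)⁻¹ * ((∑ s, Q s p.1 * p.2 ^ (s : ℕ)) * nv v (φ (p.1 + p.2 • a)) i)) hr fun t ht => ?_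
    refine ((analyticAt_snd.sub analyticAt_const).inv (sphere_ne hz ht)).mul (AnalyticAt.mul ?_ (en_coord i (hx y hy t ht)))
    refine Finset.analyticAt_fun_sum _ fun s _ => ?_
    exact ((hQa s y hy).comp_of_eq analyticAt_fst rfl).mul (analyticAt_snd.pow _)
  -- a point where it is not `0`
  obtain ⟨z₁, hz₁r, hz₁ε, hGne⟩ : ∃ z₁ : ℂ, z₁ ∈ ball (0 : ℂ) r ∧ ‖z₁‖ < ε ∧ G y₁ z₁ ≠ 0 := by
    have hp : ∀ᶠ z in 𝓝[≠] (0 : ℂ), (∑ s, Q s y₁ * z ^ (s : ℕ)) ≠ 0 := by
      have h1 : AnalyticAt ℂ (fun z : ℂ => ∑ s, Q s y₁ * z ^ (s : ℕ)) 0 := by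
        refine Finset.analyticAt_fun_sum _ fun s _ => ?_
        exact analyticAt_const.mul (analyticAt_id.pow _)
      rcases h1.eventually_eq_zero_or_eventually_ne_zero with h2 | h2
      · exfalso
        set P : Polynomial ℂ := ∑ s : Fin (M + 1), Polynomial.C (Q s y₁) * Polynomial.X ^ (s : ℕ) with hP
        have h3 : ∀ z, P.eval z = ∑ s, Q s y₁ * z ^ (s : ℕ) := by
          intro z
          rw [hP, Polynomial.eval_finsetSum]
          refine Finset.sum_congr rfl fun s _ => ?_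
          simp
        have h4 : P = 0 := by
          refine Polynomial.eq_zero_of_infinite_isRoot P ?_
          have h5 : {z : ℂ | P.IsRoot z} ∈ 𝓝 (0 : ℂ) := by
            filter_upwards [h2] with z hz
            show P.eval z = 0
            rw [h3, hz]
          exact infinite_of_mem_nhds (0 : ℂ) h5
        apply hQne
        have h5 : P.coeff (s₁ : ℕ) = Q s₁ y₁ := by
          rw [hP, Polynomial.finsetSum_coeff]
          rw [Finset.sum_eq_single s₁]
          · simp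
          · intro b _ hb
            rw [Polynomial.coeff_C_mul_X_pow, if_neg]
            intro h
            exact hb (Fin.ext h.symm)
          · intro h
            exact absurd (Finset.mem_univ _) h
        rw [← h5, h4, Polynomial.coeff_zero]
      · exact h2
    have h1 : ∀ᶠ z in 𝓝[≠] (0 : ℂ), z ∈ ball (0 : ℂ) (min r ε) := mem_nhdsWithin_of_mem_nhds (isOpen_ball.mem_nhds (mem_ball_self (lt_min hr hε)))
    obtain ⟨z₁, h2, h3⟩ := (hp.and h1).exists
    have h4 : ‖z₁‖ < min r ε := by rwa [mem_ball_zero_iff] at h3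
    refine ⟨z₁, by rw [mem_ball_zero_iff]; exact h4.trans_le (min_le_left _ _), h4.trans_le (min_le_right _ _), fun h0 => ?_⟩
    obtain ⟨i, hi⟩ := Pool.Agent.TG.en_coord_ne (hF0 y₁ hy₁ z₁)
    have h5 := hmain y₁ hy₁ z₁ (by rw [mem_ball_zero_iff]; exact h4.trans_le (min_le_left _ _)) i
    have h6 : ci v φ a r Q y₁ z₁ i = 0 := by
      rw [← hGi, h0]
      rfl
    rw [h6, mul_zero] at h5
    exact mul_ne_zero h2 hi h5.symm
  have hna : ‖z₁ • a‖ < ε := by rwa [norm_smul, ha, mul_one]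
  have hU : ∀ y ∈ ball (y₀ + z₁ • a) ε, y - z₁ • a ∈ ball y₀ ε := by
    intro y hy
    rw [mem_ball, dist_eq_norm] at hy ⊢
    rwa [show y - z₁ • a - y₀ = y - (y₀ + z₁ • a) by abel]
  have hy₀U : y₀ ∈ ball (y₀ + z₁ • a) ε := by
    rw [mem_ball, dist_eq_norm, show y₀ - (y₀ + z₁ • a) = -(z₁ • a) by abel, norm_neg]
    exact hna
  have hGU : AnalyticOnNhd ℂ (fun y => G (y - z₁ • a) z₁) (ball (y₀ + z₁ • a) ε) := by
    intro y hy
    exact AnalyticAt.comp_of_eq (g := fun y => G y z₁) (f := fun y : Vd (k + 1) => y - z₁ • a) (hGan _ (hU y hy) z₁ hz₁r) (analyticAt_id.sub analyticAt_const) rfl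
  refine ⟨fun y => G (y - z₁ • a) z₁, hGU y₀ hy₀U, ?_, ?_⟩
  · intro hcon
    have h1 : (fun y => G (y - z₁ • a) z₁) =ᶠ[𝓝 y₀] 0 := by
      filter_upwards [hcon] with y hy
      exact not_not.1 hy
    have h2 := hGU.eqOn_zero_of_preconnected_of_eventuallyEq_zero (convex_ball _ _).isPreconnected hy₀U h1 (x := y₁ + z₁ • a) (by
      rw [mem_ball, dist_eq_norm, show y₁ + z₁ • a - (y₀ + z₁ • a) = y₁ - y₀ by abel]
      rwa [mem_ball, dist_eq_norm] at hy₁)
    apply hGne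
    have h3 : G (y₁ + z₁ • a - z₁ • a) z₁ = 0 := h2
    rwa [add_sub_cancel_right] at h3
  · filter_upwards [isOpen_ball.mem_nhds hy₀U] with y hy hGy
    have h1 := hpr _ (hU y hy) z₁ hz₁r hGy
    rwa [sub_add_cancel] at h1

end Pool.Agent.G4.E
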