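import Pool.Agent.G4.E.EDefs
import Pool.Agent.G4.E.MerC
import Pool.Agent.G3.C.ZCount
import Pool.Agent.G3.P.Tbd
import Pool.Agent.TG.Gd

/-!
# G4 E MerT: the global sheets are weakly meromorphic

`mer_top`: `φ` is holomorphic off `D`, and an honest curve on every line of direction `a`.  Then it has analytic lifts which are not identically `0`, at every point.

Proof.  `F₀` the entire lift on the line through `y₀`, `v` the unit vector of `F₀ 0`; a radius `r` such that there are no points of `D` and no zeros of `⟨v, F₀⟩` on the circle `‖z‖ = r`; by compactness the same for the lines near this one.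
The number of the zeros of `⟨v, F_y⟩` in the disc is bounded (`tbd`, `vcount`, with the centre `z₁ = r`).  `mer_core`.
-/

set_option autoImplicit false

open Topology Filter Metric

namespace Pool.Agent.G4.E

open Pool.Agent.H36.BP (EN fs wd)
open Pool.Agent.H14.PP (IsCone CurveAt Tan)
open Pool.Agent.H62.EF (MN pr)
open Pool.Agent.AD (Vd Chart Charts IsGerm)
open Pool.Agent.TG
open Pool.Agent.G3.A (Hc)
open Pool.Agent.G3.C (Gc nv nd nv_pr nd_cont nd_pr_ne nv_continuousAt)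
open Pool.Agent.G3.E (Hol)

variable {N k : ℕ}

/-- a circle without points of a discrete set -/
theorem exists_radius {P : ℂ → Prop} (h : ∀ z : ℂ, ∀ᶠ w in 𝓝[≠] z, ¬ P w) {R : ℝ} (hR : 0 < R) : ∃ r : ℝ, 0 < r ∧ r < R ∧ ∀ z ∈ sphere (0 : ℂ) r, ¬ P z := by
  have hfin : {z : ℂ | z ∈ closedBall (0 : ℂ) R ∧ P z}.Finite := by
    by_contra hinf
    obtain ⟨z, -, hz⟩ := Set.Infinite.exists_accPt_of_subset_isCompact hinf (isCompact_closedBall (0 : ℂ) R) fun z hz => hz.1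
    rw [accPt_iff_frequently_nhdsNE] at hz
    exact hz ((h z).mono fun w hw hw2 => hw hw2.2)
  have h1 : ((fun z : ℂ => ‖z‖) '' {z : ℂ | z ∈ closedBall (0 : ℂ) R ∧ P z}).Finite := hfin.image _
  obtain ⟨r, hr, hr2⟩ := (Set.Ioo_infinite hR).exists_notMem_finite h1
  refine ⟨r, hr.1, hr.2, fun z hz hPz => hr2 ⟨z, ⟨?_, hPz⟩, ?_⟩⟩
  · rw [mem_sphere_zero_iff_norm] at hz
    rw [mem_closedBall_zero_iff, hz]
    exact hr.2.le
  · rwa [mem_sphere_zero_iff_norm] at hz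

variable {X : Set (EN N)} {Λ : AddSubgroup (Vd (k + 1))} {u : EN N → Vd (k + 1)} {D : Set (Vd (k + 1))}

/-- continuity off `D` -/
theorem hol_cont' (hX : IsCone X) {φ : Vd (k + 1) → MN N} (hφ : Hol X Λ u D φ) {y : Vd (k + 1)} (hy : y ∉ D) : ContinuousAt φ y := by
  obtain ⟨F, hF, hFe⟩ := hφ y hy
  have h0 : F y ≠ 0 := ne_zero hX hFe.self_of_nhds.1
  have h1 : ContinuousAt (fun z => pr (F z)) y :=
    ContinuousAt.comp (g := fun x : EN N => pr x) (Pool.Agent.H62.EF.continuousAt_pr h0) hF.continuousAt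
  refine h1.congr ?_
  filter_upwards [hFe] with z hz
  exact hz.2.1.symm

theorem mer_top {p : EN N → EN N → ℝ} {m : ℕ} {K : ℝ} {a : Vd (k + 1)} (hX : IsCone X) (hP : Pool.Agent.G3.PS X Λ u D p m K) (ha : ‖a‖ = 1) (hDc : IsClosed D)
    (hiso : ∀ y : Vd (k + 1), ∀ᶠ z in 𝓝[≠] (0 : ℂ), y + z • a ∉ D) {φ : Vd (k + 1) → MN N} (hφ : Hol X Λ u D φ)
    (hl : ∀ y, (fun z : ℂ => φ (y + z • a)) ∈ Hc X Λ u a y) (y₀ : Vd (k + 1)) :
    ∃ G : Vd (k + 1) → EN N, AnalyticAt ℂ G y₀ ∧ (∃ᶠ z in 𝓝 y₀, G z ≠ 0) ∧ ∀ᶠ z in 𝓝 y₀, G z ≠ 0 → φ z = pr (G z) := by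
  choose F hFG hFφ using hl
  have hF0 : ∀ y z, F y z ≠ 0 := fun y z => ne_zero hX ((hFG y).2.1 z)
  have hFφ' : ∀ y (z : ℂ), φ (y + z • a) = pr (F y z) := fun y z => congrFun (hFφ y) z
  have hn0 : ‖F y₀ 0‖ ≠ 0 := norm_ne_zero_iff.2 (hF0 y₀ 0)
  obtain ⟨v, hv1, hv0⟩ : ∃ v : EN N, ‖v‖ ≤ 1 ∧ (inner ℂ v (F y₀ 0) : ℂ) ≠ 0 := by
    refine ⟨((‖F y₀ 0‖ : ℂ))⁻¹ • F y₀ 0, ?_, ?_⟩
    · rw [norm_smul, norm_inv, Complex.norm_real, norm_norm, inv_mul_cancel₀ hn0]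
    · rw [inner_smul_left]
      refine mul_ne_zero ?_ ?_
      · rw [map_inv₀, Complex.conj_ofReal]
        exact inv_ne_zero (by exact_mod_cast hn0)
      · exact inner_self_ne_zero.2 (hF0 y₀ 0)
  have hvd : ∀ y, Differentiable ℂ fun w => (inner ℂ v (F y w) : ℂ) := fun y => (innerSL ℂ v).differentiable.comp (hFG y).1
  -- the radius
  obtain ⟨r, hr, hr1, hrP⟩ := exists_radius (P := fun z => y₀ + z • a ∈ D ∨ (inner ℂ v (F y₀ z) : ℂ) = 0) (fun z => by
    have h1 : ∀ᶠ w in 𝓝[≠] z, y₀ + w • a ∉ D := by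
      have h2 : Tendsto (fun w : ℂ => w - z) (𝓝[≠] z) (𝓝[≠] 0) := by
        rw [tendsto_nhdsWithin_iff]
        refine ⟨?_, ?_⟩
        · have h3 : Continuous fun w : ℂ => w - z := by fun_prop
          have h4 := h3.tendsto z
          rw [sub_self] at h4
          exact h4.mono_left nhdsWithin_le_nhds
        · filter_upwards [self_mem_nhdsWithin] with w hw
          exact sub_ne_zero.2 hw
      filter_upwards [h2.eventually (hiso (y₀ + z • a))] with w hw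
      rwa [add_assoc, ← add_smul, add_sub_cancel] at hw
    have h2 : ∀ᶠ w in 𝓝[≠] z, (inner ℂ v (F y₀ w) : ℂ) ≠ 0 := by
      rcases ((hvd y₀).analyticAt z).eventually_eq_zero_or_eventually_ne_zero with h3 | h3
      · exfalso
        have h4 : AnalyticOnNhd ℂ (fun w => (inner ℂ v (F y₀ w) : ℂ)) Set.univ := fun w _ => (hvd y₀).analyticAt w
        have h5 := h4.eqOn_zero_of_preconnected_of_eventuallyEq_zero isPreconnected_univ (Set.mem_univ z) h3 (Set.mem_univ (0 : ℂ))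
        exact hv0 h5
      · exact h3
    filter_upwards [h1, h2] with w w1 w2 w3
    exact w3.elim w1 w2) (zero_lt_one)
  -- the lines near this one
  have hnd : ∀ y, ∀ w : ℂ, nd v (φ (y + w • a)) ≠ 0 ↔ (inner ℂ v (F y w) : ℂ) ≠ 0 := fun y w => by
    rw [hFφ' y w]
    exact nd_pr_ne (hF0 y w)
  have hcadd : Continuous fun q : Vd (k + 1) × ℂ => q.1 + q.2 • a := by fun_prop
  have hcirc : ∀ᶠ y in 𝓝 y₀, ∀ w ∈ sphere (0 : ℂ) r, y + w • a ∉ D ∧ nd v (φ (y + w • a)) ≠ 0 := by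
    refine (isCompact_sphere (0 : ℂ) r).eventually_forall_of_forall_eventually fun w hw => ?_
    have h1 := hrP w hw
    push Not at h1
    have h2 : ∀ᶠ q in 𝓝 ((y₀, w) : Vd (k + 1) × ℂ), q.1 + q.2 • a ∉ D :=
      (hcadd.continuousAt (x := (y₀, w))).eventually (hDc.isOpen_compl.mem_nhds (show (y₀, w).1 + (y₀, w).2 • a ∈ Dᶜ from h1.1))
    have h3 : ContinuousAt (fun q : Vd (k + 1) × ℂ => nd v (φ (q.1 + q.2 • a))) (y₀, w) := by
      refine ContinuousAt.comp (g := nd v) (nd_cont v).continuousAt ?_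
      exact ContinuousAt.comp (g := φ) (f := fun q : Vd (k + 1) × ℂ => q.1 + q.2 • a) (hol_cont' hX hφ h1.1) hcadd.continuousAt
    exact h2.and (h3.eventually_ne ((hnd y₀ w).2 h1.2))
  -- the centre
  have hrs : (r : ℂ) ∈ sphere (0 : ℂ) r := by
    rw [mem_sphere_zero_iff_norm, Complex.norm_real, Real.norm_of_nonneg hr.le]
  have h1 := hrP _ hrs
  push Not at h1
  obtain ⟨δ, hδ, hδD⟩ : ∃ δ : ℝ, 0 < δ ∧ y₀ + (r : ℂ) • a ∈ Gd D (2 * δ) := by
    obtain ⟨ε, hε, hεD⟩ := Metric.isOpen_iff.1 hDc.isOpen_compl _ h1.1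
    refine ⟨ε / 2, by positivity, fun b hb => ?_⟩
    by_contra hlt
    push Not at hlt
    have h2 : b ∈ ball (y₀ + (r : ℂ) • a) ε := by
      rw [mem_ball, dist_comm, dist_eq_norm]
      linarith
    exact hεD h2 hb
  obtain ⟨A, hA, hAe⟩ : ∃ A : ℝ, 0 < A ∧ ∀ᶠ y in 𝓝 y₀, ‖nv v (φ (y + (r : ℂ) • a))‖ < A := by
    refine ⟨‖nv v (φ (y₀ + (r : ℂ) • a))‖ + 1, by positivity, ?_⟩
    have h2 : ContinuousAt (fun y : Vd (k + 1) => nv v (φ (y + (r : ℂ) • a))) y₀ := by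
      refine ContinuousAt.comp (g := nv v) (f := fun y : Vd (k + 1) => φ (y + (r : ℂ) • a)) (nv_continuousAt ((hnd y₀ r).2 h1.2)) ?_
      refine ContinuousAt.comp (g := φ) (f := fun y : Vd (k + 1) => y + (r : ℂ) • a) (hol_cont' hX hφ h1.1) ?_
      fun_prop
    exact h2.norm.eventually_lt continuousAt_const (by linarith)
  obtain ⟨ε, hε, hall⟩ := Metric.eventually_nhds_iff_ball.1 ((hcirc.and hAe).and (Metric.ball_mem_nhds y₀ hδ))
  obtain ⟨K₁, hK₁⟩ := Pool.Agent.G3.tbd hP (δ := δ) (η := 1) (H := 1) (r := 4 * r) (R := 4 * r + 1) hδ one_pos zero_le_one (by positivity) (by linarith)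
  obtain ⟨M, hM⟩ := Pool.Agent.G3.C.vcount (N := N) (z₁ := (r : ℂ)) (zc := 0) (R := 4 * r) (r := r) (C := K₁) (c := A⁻¹) (by positivity) (by
    intro z hz
    rw [mem_closedBall_zero_iff] at hz
    rw [mem_closedBall, dist_eq_norm]
    have h2 : ‖z - (r : ℂ)‖ ≤ ‖z‖ + ‖(r : ℂ)‖ := norm_sub_le _ _
    rw [Complex.norm_real, Real.norm_of_nonneg hr.le] at h2
    linarith) (inv_pos.2 hA)
  obtain ⟨G, hG, hG1, hG2⟩ := mer_core (φ := φ) (a := a) (y₀ := y₀) ha hr hε (v := v) (M := M) (fun y hy => by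
    obtain ⟨⟨hy1, hy2⟩, hy3⟩ := hall y hy
    refine ⟨F y, (hFG y).1, hF0 y, hFφ' y, fun w hw => (hnd y w).1 (hy1 w hw).2, ?_⟩
    refine hM (F y) v (hFG y).1 (hF0 y) hv1 ?_ ?_
    · have hder : ∀ w : ℂ, deriv (fun z : ℂ => y + z • a) w = a := fun w => by
        have h1 : HasDerivAt (fun z : ℂ => y + z • a) ((1 : ℂ) • a) w := ((hasDerivAt_id w).smul_const a).const_add y
        rw [h1.deriv, one_smul]
      have hcv : Pool.Agent.G3.Cv X Λ u (ball (r : ℂ) (4 * r + 1)) (F y) fun w => y + w • a :=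
        ⟨(hFG y).1.differentiableOn, ((differentiable_id.smul_const a).const_add y).differentiableOn, fun w _ => (hFG y).2.1 w, fun w _ => (hFG y).2.2 w⟩
      have hGd : y + (r : ℂ) • a ∈ Gd D δ := by
        have h2 := gd_near (w := y + (r : ℂ) • a) (r := δ) hδD (by
          rw [add_sub_add_right_eq_sub, ← dist_eq_norm]
          exact (mem_ball.1 hy3).le)
        rwa [show 2 * δ - δ = δ by ring] at h2
      have h2 := hK₁ (F y) (fun w => y + w • a) (r : ℂ) hcv (fun w _ => by rw [hder, ha]) hGd (by rw [hder, ha])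
      unfold Pool.Agent.G3.TT at h2
      linarith
    · have h2 := (hnd y r).1 (hy1 _ hrs).2
      have h3 : ‖(inner ℂ v (F y r) : ℂ)‖ ≠ 0 := norm_ne_zero_iff.2 h2
      rw [hFφ' y r, nv_pr h2, norm_smul, norm_inv] at hy2
      have h4 : 0 < ‖(inner ℂ v (F y r) : ℂ)‖ := norm_pos_iff.2 h2
      rw [inv_mul_lt_iff₀ h4] at hy2
      rw [inv_mul_le_iff₀ hA]
      rw [mul_comm] at hy2
      exact hy2.le) (fun y hy w hw => by
    obtain ⟨⟨hy1, hy2⟩, hy3⟩ := hall y hy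
    obtain ⟨Fh, hFh, hFe⟩ := hφ _ (hy1 w hw).1
    have hX0 := hFe.self_of_nhds
    have h2 : (inner ℂ v (Fh (y + w • a)) : ℂ) ≠ 0 := by
      have h3 := (hy1 w hw).2
      rw [hX0.2.1, nd_pr_ne (ne_zero hX hX0.1)] at h3
      exact h3
    have hadd : AnalyticAt ℂ (fun q : Vd (k + 1) × ℂ => q.1 + q.2 • a) (y, w) := analyticAt_fst.add (analyticAt_snd.smul analyticAt_const)
    have hFa : AnalyticAt ℂ (fun q : Vd (k + 1) × ℂ => Fh (q.1 + q.2 • a)) (y, w) := AnalyticAt.comp_of_eq (g := Fh) hFh hadd rfl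
    have hia : AnalyticAt ℂ (fun q : Vd (k + 1) × ℂ => (inner ℂ v (Fh (q.1 + q.2 • a)) : ℂ)) (y, w) := ((innerSL ℂ v).analyticAt _).comp hFa
    refine ((hia.inv h2).smul hFa).congr ?_
    have h4 : ∀ᶠ q in 𝓝 ((y, w) : Vd (k + 1) × ℂ), φ (q.1 + q.2 • a) = pr (Fh (q.1 + q.2 • a)) :=
      (hcadd.continuousAt.eventually hFe).mono fun q hq => hq.2.1
    filter_upwards [h4, hia.continuousAt.eventually_ne h2] with q hq1 hq2
    show (inner ℂ v (Fh (q.1 + q.2 • a)) : ℂ)⁻¹ • Fh (q.1 + q.2 • a) = nv v (φ (q.1 + q.2 • a))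
    rw [hq1, nv_pr hq2])
  exact ⟨G, hG, hG1, hG2⟩

end Pool.Agent.G4.E
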