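import Pool.Agent.G4.E.Pl
import Pool.Agent.G4.E.Dir
import Pool.Agent.G4.E.MerT
import Pool.Agent.G4.E.GDx
import Pool.Agent.G4.A.DAx
import Pool.Agent.G4.A.TDt
import Pool.Agent.G4.A.BadC
import Pool.Agent.G4.C.MainC
import Pool.Agent.G4.Z.CDefs
import Pool.Agent.G3.A.Tor
import Pool.Agent.G3.X.Crs

/-!
# G4 E Main: the finite set of the global sections

`a₀` a direction whose real closure is the whole space (`exists_dir`), `SS` the global sheets of the direction `a₀`: holomorphic off `D` (`reg_hol`), weakly meromorphic (`mer_top`).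
`cl_all`: every curve over a line of direction `a` is the restriction of a member of `SS`: induction on the codimension of the real closure `E` of `ℂ a`.  `E = ⊤`: `cl_of_gd`.  Otherwise there is `ν ∈ E`, `i ν ∉ E`; block (C) gives `BC` for
`a`, `ν`; a direction `a'` in the plane of `ν` and `a` has a larger real closure; `cl_plane`.
-/

set_option autoImplicit false

open Topology Filter Metric

namespace Pool.Agent.G4.E

open Pool.Agent.H36.BP (EN fs wd)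
open Pool.Agent.H14.PP (IsCone CurveAt Tan)
open Pool.Agent.H62.EF (MN pr)
open Pool.Agent.AD (Vd Chart Charts IsGerm)
open Pool.Agent.TG
open Pool.Agent.G3 (PS Cv)
open Pool.Agent.G3.A (Ba Hc Frm ToE CE Sht Tb exists_toE)
open Pool.Agent.G3.C (JForm)
open Pool.Agent.G3.E (BC Hol GD)
open Pool.Agent.G4.A (DA exists_da exists_tdat reg_hol ba_closed)
open Pool.Agent.G4.C (AlgP ThP)

variable {N k : ℕ} {X : Set (EN N)} {Λ : AddSubgroup (Vd (k + 1))} {u : EN N → Vd (k + 1)} {D B Bad : Set (Vd (k + 1))} {a ν : Vd (k + 1)}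
  {Γ : AddSubgroup (Vd (k + 1))} {J r : ℕ} {W : Fin r → Vd (k + 1) →L[ℂ] ℂ} {α : Fin J → VForm X Λ u} {c₀ C₀ ρ δ : ℝ}

theorem gd_top (S : DA X Λ u D B Bad a Γ W α c₀ C₀ ρ δ) (hE : ToE Λ a ⊤) : ∃ SS : Set (Vd (k + 1) → MN N), GD X Λ u D a SS := by
  have hCE : ∀ b, CE X Λ u a b ⊤ := fun b => hE.ce4 S b
  exact gd_of_sht S hCE fun φ hφ y hy => reg_hol S (hCE 0) hφ hy

theorem ldi_iso (hL : LDi D) : ∀ a : Vd (k + 1), a ≠ 0 → ∀ y : Vd (k + 1), ∀ᶠ z in 𝓝[≠] (0 : ℂ), y + z • a ∉ D := fun a ha y => by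
  filter_upwards [hL a ha y 0] with z hz
  have h1 : y + z • a = z • a + y := add_comm _ _
  rw [h1]
  exact hz

theorem cl_all {p : EN N → EN N → ℝ} {m : ℕ} {K : ℝ} (G : Geo X Λ u D B) (hD : ∀ y, ∃ (m : ℕ) (h : Vd (k + 1) → Fin m → ℂ), AnalyticAt ℂ h y ∧ ∀ᶠ z in 𝓝 y, (z ∈ D ↔ h z = 0))
    (hBc : IsClosed B) (hBi : ∀ β ∈ B, ∀ l ∈ Λ, β + l ∈ B) (hs : Simp Λ) (hL : LDi D) (hfew : ∀ a : Vd (k + 1), a ≠ 0 → Few (Ba D B a) a) (hP : PS X Λ u D p m K)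
    (hF : Frm X Λ u D Γ W α) (hJ : ∀ ν : Vd (k + 1), ν ≠ 0 → ∃ (m : ℕ) (Ψ : JForm X Λ u ν m) (Nν : Set (Vd (k + 1))), AlgP D Ψ ∧ ∀ a : Vd (k + 1), a ≠ 0 → ThP Ψ a Nν)
    (hne : (Dᶜ : Set (Vd (k + 1))).Nonempty) {a₀ : Vd (k + 1)} (ha₀ : ‖a₀‖ = 1) {SS : Set (Vd (k + 1) → MN N)} (hSS : GD X Λ u D a₀ SS) (n : ℕ) :
    ∀ a : Vd (k + 1), ‖a‖ = 1 → ∀ E, ToE Λ a E → Module.finrank ℝ (Vd (k + 1)) ≤ Module.finrank ℝ E + n → Cl X Λ u D SS a := by
  have hn1 : ∀ a : Vd (k + 1), ‖a‖ = 1 → a ≠ 0 := by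
    rintro a ha rfl
    rw [norm_zero] at ha
    exact zero_ne_one ha
  have hiso := ldi_iso hL
  have htop : ∀ a : Vd (k + 1), ‖a‖ = 1 → ToE Λ a ⊤ → Cl X Λ u D SS a := by
    intro a ha hE
    obtain ⟨c₀, C₀, ρ, δ, S⟩ := exists_da G hBi hL hP (Pool.Agent.GX.crs G) hF ha (hfew a (hn1 a ha))
    obtain ⟨SS', hSS'⟩ := gd_top S hE
    exact cl_of_gd G.cone G.charts G.tor G.lat G.D_closed hiso hne (hn1 _ ha₀) hSS hSS' fun φ hφ y₀ =>
      mer_top G.cone hP ha G.D_closed (hiso a (hn1 a ha)) (hSS'.hol φ hφ) (hSS'.line φ hφ) y₀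
  induction n with
  | zero =>
    intro a ha E hE hle
    rw [add_zero] at hle
    have h1 : E = ⊤ := Submodule.eq_top_of_finrank_eq (le_antisymm (Submodule.finrank_le E) hle)
    subst h1
    exact htop a ha hE
  | succ n ih =>
    intro a ha E hE hle
    rcases toE_top_or G.lat hs (hn1 a ha) hE with rfl | ⟨ν, hν, hνI⟩
    · exact htop a ha hE
    · have hν0 : ν ≠ 0 := by
        rintro rfl
        rw [smul_zero] at hνI
        exact hνI E.zero_mem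
      have hind : ∀ s t : ℂ, s • ν + t • a = 0 → s = 0 ∧ t = 0 := by
        intro s t h
        have hs0 : s = 0 := by
          by_contra hs0
          have h1 : ν = (-(s⁻¹ * t)) • a := by
            have h2 : s • ν = -(t • a) := eq_neg_of_add_eq_zero_left h
            calc ν = s⁻¹ • (s • ν) := by rw [smul_smul, inv_mul_cancel₀ hs0, one_smul]
              _ = (-(s⁻¹ * t)) • a := by rw [h2, smul_neg, smul_smul, neg_smul]
          apply hνI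
          rw [h1, smul_smul]
          exact hE.mem _
        refine ⟨hs0, ?_⟩
        rw [hs0, zero_smul, zero_add, smul_eq_zero] at h
        exact h.resolve_right (hn1 a ha)
      obtain ⟨c₀, C₀, ρ, δ, S⟩ := exists_da G hBi hL hP (Pool.Agent.GX.crs G) hF ha (hfew a (hn1 a ha))
      obtain ⟨m', Ψ, Nν, hA, hT⟩ := hJ ν hν0
      have hBC : ∀ b, BC X Λ u a ν b := by
        intro b
        obtain ⟨TS, hTS, hex⟩ := exists_tdat S hE hν (ba_closed G hBc) hD b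
        exact Pool.Agent.G4.C.bc hTS ha G.charts hA (hT a (hn1 a ha)) hex
      -- the plane
      have hpl : (Submodule.span ℂ {ν, a} : Submodule ℂ (Vd (k + 1))) ≠ ⊥ := by
        intro h
        have h1 : ν ∈ (Submodule.span ℂ {ν, a} : Submodule ℂ (Vd (k + 1))) := Submodule.subset_span (by simp)
        rw [h, Submodule.mem_bot] at h1
        exact hν0 h1
      obtain ⟨a', ha'S, ha', hE'⟩ := exists_dir G.lat _ hpl
      obtain ⟨E', hE'E⟩ := exists_toE G.lat a'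
      have hsub := hE' E' hE'E
      have ha2 : ∀ z : ℂ, z • a ∈ E' := fun z => hsub _ (Submodule.smul_mem _ _ (Submodule.subset_span (by simp)))
      have hlt : E < E' := by
        refine lt_of_le_of_ne (toE_le G.lat hE hE'E ha2) ?_
        rintro rfl
        exact hνI (hsub _ (Submodule.smul_mem _ _ (Submodule.subset_span (by simp))))
      have h1 := Submodule.finrank_lt_finrank_of_lt hlt
      have hcl := ih a' ha' E' hE'E (by omega)
      obtain ⟨s₀, t₀, hst⟩ := Submodule.mem_span_pair.1 ha'S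
      rw [← hst] at hcl
      exact cl_plane S hiso hBC hind hSS.fin hSS.hol (by rw [hst]; exact hn1 _ ha') hcl

/-- **the global sections** -/
theorem end_main {p : EN N → EN N → ℝ} {m : ℕ} {K : ℝ}
    (G : Geo X Λ u D B) (hD : ∀ y, ∃ (m : ℕ) (h : Vd (k + 1) → Fin m → ℂ), AnalyticAt ℂ h y ∧ ∀ᶠ z in 𝓝 y, (z ∈ D ↔ h z = 0)) (hDu : D ≠ Set.univ)
    (hBc : IsClosed B) (hBi : ∀ β ∈ B, ∀ l ∈ Λ, β + l ∈ B) (hs : Simp Λ) (hfew : ∀ a : Vd (k + 1), a ≠ 0 → Few (Ba D B a) a) (hP : PS X Λ u D p m K)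
    {Γ : AddSubgroup (Vd (k + 1))} {J r : ℕ} {W : Fin r → Vd (k + 1) →L[ℂ] ℂ} {α : Fin J → VForm X Λ u} (hF : Frm X Λ u D Γ W α)
    (hJ : ∀ ν : Vd (k + 1), ν ≠ 0 → ∃ (m : ℕ) (Ψ : JForm X Λ u ν m) (Nν : Set (Vd (k + 1))), AlgP D Ψ ∧ ∀ a : Vd (k + 1), a ≠ 0 → ThP Ψ a Nν) :
    (∃ S, Csf X Λ u D S) ∧ LDi D := by
  have hn1 : ∀ a : Vd (k + 1), ‖a‖ = 1 → a ≠ 0 := by
    rintro a ha rfl
    rw [norm_zero] at ha
    exact zero_ne_one ha
  obtain ⟨y₀, hy₀⟩ := (Set.ne_univ_iff_exists_notMem D).1 hDu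
  have hL : LDi D := ldi_of G.lat hs (fun y _ => hD y) G.D_inv hy₀
  refine ⟨?_, hL⟩
  have hiso := ldi_iso hL
  obtain ⟨a₀, -, ha₀, hE₀⟩ := exists_dir G.lat ⊤ (by
    intro h
    have h1 : (fun _ => 1 : Vd (k + 1)) ∈ (⊤ : Submodule ℂ (Vd (k + 1))) := Submodule.mem_top
    rw [h, Submodule.mem_bot] at h1
    exact one_ne_zero (congrFun h1 0))
  obtain ⟨E₀, hE₀E⟩ := exists_toE G.lat a₀
  have htop : E₀ = ⊤ := by
    rw [Submodule.eq_top_iff']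
    exact fun v => hE₀ E₀ hE₀E v Submodule.mem_top
  subst htop
  obtain ⟨c₀, C₀, ρ, δ, S⟩ := exists_da G hBi hL hP (Pool.Agent.GX.crs G) hF ha₀ (hfew a₀ (hn1 a₀ ha₀))
  obtain ⟨SS, hSS⟩ := gd_top S hE₀E
  refine ⟨SS, ⟨hSS.fin, hSS.hol, fun Φ hΦ y => ?_, fun Φ hΦ l hl => ⟨_, hSS.tr Φ hΦ l hl, fun y _ => rfl⟩, fun a ha b F hF' => ?_⟩⟩
  · obtain ⟨H, h1, h2, h3⟩ := mer_top G.cone hP ha₀ G.D_closed (hiso a₀ (hn1 a₀ ha₀)) (hSS.hol Φ hΦ) (hSS.line Φ hΦ) y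
    exact ⟨H, h1, h2, h3.mono fun z hz _ => hz⟩
  · have hna : ‖a‖ ≠ 0 := norm_ne_zero_iff.2 ha
    have hc : (‖a‖ : ℂ) ≠ 0 := by exact_mod_cast hna
    have hn : ‖((‖a‖ : ℂ))⁻¹ • a‖ = 1 := by
      rw [norm_smul, norm_inv, Complex.norm_real, norm_norm]
      exact inv_mul_cancel₀ hna
    obtain ⟨E, hE⟩ := exists_toE G.lat (((‖a‖ : ℂ))⁻¹ • a)
    have hcl := cl_all G hD hBc hBi hs hL hfew hP hF hJ ⟨y₀, hy₀⟩ ha₀ hSS (Module.finrank ℝ (Vd (k + 1))) _ hn E hE (by omega)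
    have hmem : (fun z : ℂ => pr (F (((‖a‖ : ℂ))⁻¹ * z))) ∈ Hc X Λ u (((‖a‖ : ℂ))⁻¹ • a) b := by
      refine ⟨fun z => F (((‖a‖ : ℂ))⁻¹ * z), ⟨?_, fun z => ?_, fun z => ?_⟩, rfl⟩
      · have h1 : Differentiable ℂ F := differentiableOn_univ.1 hF'.F_diff
        exact h1.comp ((differentiable_const _).mul differentiable_id)
      · exact hF'.mem _ (Set.mem_univ _)
      · have h1 := hF'.lift _ (Set.mem_univ (((‖a‖ : ℂ))⁻¹ * z))
        have h2 : b + z • (((‖a‖ : ℂ))⁻¹ • a) = ((((‖a‖ : ℂ))⁻¹ * z) • a + b : Vd (k + 1)) := by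
          rw [smul_smul, mul_comm z, add_comm b]
        rw [h2]
        exact h1
    obtain ⟨Φ, hΦ, hΦe⟩ := hcl b _ hmem
    refine ⟨Φ, hΦ, fun z hz => ?_⟩
    have h2 : b + ((‖a‖ : ℂ) * z) • (((‖a‖ : ℂ))⁻¹ • a) = (z • a + b : Vd (k + 1)) := by
      rw [smul_smul, mul_comm (‖a‖ : ℂ) z, mul_assoc, mul_inv_cancel₀ hc, mul_one, add_comm b]
    have h3 : ((‖a‖ : ℂ))⁻¹ * ((‖a‖ : ℂ) * z) = z := by
      rw [← mul_assoc, inv_mul_cancel₀ hc, one_mul]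
    have h1 := hΦe ((‖a‖ : ℂ) * z) (by rw [h2]; exact hz)
    rw [h2] at h1
    simp only [h3] at h1
    exact h1

end Pool.Agent.G4.E
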