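import Pool.Agent.G4.E.EDefs
import Pool.Agent.G4.A.LOC
import Pool.Agent.G4.A.P1
import Pool.Agent.TG.Rm

/-!
# G4 E PlH: the family over a plane is holomorphic off `D`

`pln_hol`: continuity at `(ζ₀, z₀)` off `D'`: if `p n → (ζ₀, z₀)`, the curves `Ψ (p n).1` over `b + (p n).1 ν + ℂ a` have (along an ultrafilter) a limit curve `f ∈ Hc (b + ζ₀ ν)` (`hc_closed`), and `f z = pr (G (ζ₀, z)) = Ψ ζ₀ z` at the
points `z` off `D'` with `G (ζ₀, z) ≠ 0`; so `f = Ψ ζ₀` (`hc_eq`), and `Ψ (p n).1 (p n).2 → Ψ ζ₀ z₀`.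
Holomorphic: `v` with `nd v (Ψ ζ₀ z₀) ≠ 0`; near `(ζ₀, z₀)` the vector `nv v (Ψ p)` is continuous, and equal to `(inner v (G p))⁻¹ • G p` where `inner v (G p) ≠ 0` (`G p ≠ 0`): `riemann_ext` (`TG/Rm`) with the function `inner v (G p)`, which is
not identically `0` near the point; by continuity the extension is `nv v (Ψ p)` (the set `inner v (G p) ≠ 0` is dense near the point).
-/

set_option autoImplicit false

open Topology Filter Metric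

namespace Pool.Agent.G4.E

open Pool.Agent.H36.BP (EN fs wd)
open Pool.Agent.H14.PP (IsCone CurveAt Tan)
open Pool.Agent.H62.EF (MN pr)
open Pool.Agent.AD (Vd Chart Charts IsGerm)
open Pool.Agent.TG
open Pool.Agent.G3.A (Ba Hc Frm Lm)
open Pool.Agent.G3.C (nv nd nv_pr nd_cont nd_pr_ne nv_continuousAt pr_nv)
open Pool.Agent.G4.A (DA)

variable {N k : ℕ} {X : Set (EN N)} {Λ : AddSubgroup (Vd (k + 1))} {u : EN N → Vd (k + 1)} {D B Bad : Set (Vd (k + 1))} {a ν b : Vd (k + 1)}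
  {Γ : AddSubgroup (Vd (k + 1))} {J r : ℕ} {W : Fin r → Vd (k + 1) →L[ℂ] ℂ} {α : Fin J → VForm X Λ u} {c₀ C₀ ρ δ : ℝ}

/-- on the line `ζ = ζ₀` the lift does not vanish near the point, and off `D` -/
private theorem PlH_line (S : DA X Λ u D B Bad a Γ W α c₀ C₀ ρ δ) {ζ₀ z₀ : ℂ} (hD : b + ζ₀ • ν + z₀ • a ∉ D) {G : ℂ × ℂ → EN N} (hG : AnalyticAt ℂ G (ζ₀, z₀))
    (hG0 : ¬ ∀ᶠ w in 𝓝 z₀, G (ζ₀, w) = 0) : ∀ᶠ z in 𝓝[≠] z₀, G (ζ₀, z) ≠ 0 ∧ b + ζ₀ • ν + z • a ∉ D := by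
  have h1 : AnalyticAt ℂ (fun z : ℂ => G (ζ₀, z)) z₀ := by
    have h2 : AnalyticAt ℂ (fun z : ℂ => ((ζ₀, z) : ℂ × ℂ)) z₀ := analyticAt_const.prod analyticAt_id
    exact AnalyticAt.comp (g := G) (f := fun z : ℂ => ((ζ₀, z) : ℂ × ℂ)) hG h2
  have h2 : ∀ᶠ z in 𝓝[≠] z₀, G (ζ₀, z) ≠ 0 := by
    rcases h1.eventually_eq_zero_or_eventually_ne_zero with h | h
    · exact absurd h hG0
    · exact h
  have h3 : ∀ᶠ z in 𝓝 z₀, b + ζ₀ • ν + z • a ∉ D := by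
    have h4 : IsOpen {z : ℂ | b + ζ₀ • ν + z • a ∉ D} := (S.lc.D_closed.preimage (by fun_prop : Continuous fun z : ℂ => b + ζ₀ • ν + z • a)).isOpen_compl
    exact h4.mem_nhds hD
  exact h2.and (h3.filter_mono nhdsWithin_le_nhds)

/-- continuity -/
theorem pln_cont (S : DA X Λ u D B Bad a Γ W α c₀ C₀ ρ δ) {Ψ : ℂ → ℂ → MN N} (h : Pln X Λ u a ν b Ψ) {p₀ : ℂ × ℂ} (hD : b + p₀.1 • ν + p₀.2 • a ∉ D) :
    ContinuousAt (fun p : ℂ × ℂ => Ψ p.1 p.2) p₀ := by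
  obtain ⟨ζ₀, z₀⟩ := p₀
  obtain ⟨G, hG, hG0, hGe⟩ := h.lift ζ₀ z₀
  unfold ContinuousAt
  rw [Filter.tendsto_iff_ultrafilter]
  intro 𝒰 h𝒰
  have t1 : Tendsto (fun p : ℂ × ℂ => p.1) 𝒰 (𝓝 ζ₀) := (continuous_fst.tendsto ((ζ₀, z₀) : ℂ × ℂ)).mono_left h𝒰
  have t2 : Tendsto (fun p : ℂ × ℂ => p.2) 𝒰 (𝓝 z₀) := (continuous_snd.tendsto ((ζ₀, z₀) : ℂ × ℂ)).mono_left h𝒰
  have hy : Tendsto (fun p : ℂ × ℂ => b + p.1 • ν) 𝒰 (𝓝 (b + ζ₀ • ν)) := tendsto_const_nhds.add (t1.smul_const ν)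
  obtain ⟨g, hg, hlm⟩ := Pool.Agent.G4.A.hc_closed S.geo S.lg S.nl (𝒰 := 𝒰) hy (f := fun p : ℂ × ℂ => Ψ p.1) (Eventually.of_forall fun p => h.line p.1)
  -- the limit curve is `Ψ ζ₀`
  have hgΨ : g = Ψ ζ₀ := by
    refine Pool.Agent.G4.A.hc_eq S.geo.cone hg (h.line ζ₀) (z₀ := z₀) ?_
    refine Filter.Eventually.frequently ?_
    have h1 : ∀ᶠ z in 𝓝[≠] z₀, ∀ᶠ p in 𝓝 ((ζ₀, z) : ℂ × ℂ), (G p ≠ 0 → Ψ p.1 p.2 = pr (G p)) ∧ AnalyticAt ℂ G p := by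
      have h2 : ∀ᶠ q in 𝓝 ((ζ₀, z₀) : ℂ × ℂ), ∀ᶠ p in 𝓝 q, (G p ≠ 0 → Ψ p.1 p.2 = pr (G p)) ∧ AnalyticAt ℂ G p := (hGe.and hG.eventually_analyticAt).eventually_nhds
      have h3 : Tendsto (fun z : ℂ => ((ζ₀, z) : ℂ × ℂ)) (𝓝 z₀) (𝓝 (ζ₀, z₀)) := (by fun_prop : Continuous fun z : ℂ => ((ζ₀, z) : ℂ × ℂ)).tendsto z₀
      exact (h3.eventually h2).filter_mono nhdsWithin_le_nhds
    filter_upwards [PlH_line S hD hG hG0, h1] with z hz hz1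
    have t3 : Tendsto (fun p : ℂ × ℂ => ((p.1, z) : ℂ × ℂ)) 𝒰 (𝓝 (ζ₀, z)) := t1.prodMk_nhds tendsto_const_nhds
    have hza := hz1.self_of_nhds
    have e1 : Tendsto (fun p : ℂ × ℂ => G (p.1, z)) 𝒰 (𝓝 (G (ζ₀, z))) := hza.2.continuousAt.tendsto.comp t3
    have e2 : Tendsto (fun p : ℂ × ℂ => pr (G (p.1, z))) 𝒰 (𝓝 (pr (G (ζ₀, z)))) := (Pool.Agent.H62.EF.continuousAt_pr hz.1).tendsto.comp e1
    have e3 : Tendsto (fun p : ℂ × ℂ => Ψ p.1 z) 𝒰 (𝓝 (pr (G (ζ₀, z)))) := by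
      refine e2.congr' ?_
      filter_upwards [t3.eventually hz1, e1.eventually_ne hz.1] with p hp hp2
      exact (hp.1 hp2).symm
    have e4 : Tendsto (fun p : ℂ × ℂ => Ψ p.1 z) 𝒰 (𝓝 (g z)) := hlm z hz.2 (fun _ => z) tendsto_const_nhds
    rw [tendsto_nhds_unique e4 e3]
    exact (hza.1 hz.1).symm
  have h1 : Tendsto (fun p : ℂ × ℂ => Ψ p.1 p.2) 𝒰 (𝓝 (g z₀)) := hlm z₀ hD (fun p => p.2) t2
  rw [hgΨ] at h1
  exact h1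

theorem pln_hol (S : DA X Λ u D B Bad a Γ W α c₀ C₀ ρ δ) {Ψ : ℂ → ℂ → MN N} (h : Pln X Λ u a ν b Ψ) :
    HolY X Λ u {p : ℂ × ℂ | b + p.1 • ν + p.2 • a ∈ D} (fun p => b + p.1 • ν + p.2 • a) (fun p => Ψ p.1 p.2) := by
  intro p₀ hp₀
  have hX := S.geo.cone
  have hD : b + p₀.1 • ν + p₀.2 • a ∉ D := hp₀
  have hDo : IsOpen {p : ℂ × ℂ | b + p.1 • ν + p.2 • a ∉ D} := (S.lc.D_closed.preimage (by fun_prop : Continuous fun p : ℂ × ℂ => b + p.1 • ν + p.2 • a)).isOpen_compl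
  have hmem : ∀ p : ℂ × ℂ, Ψ p.1 p.2 ∈ Fb X Λ u (b + p.1 • ν + p.2 • a) := fun p => Pool.Agent.G4.A.hc_mem (h.line p.1) p.2
  obtain ⟨x₀, hx₀X, hx₀m, -⟩ := hmem p₀
  have hx₀ : x₀ ≠ 0 := ne_zero hX hx₀X
  have hself : (inner ℂ x₀ x₀ : ℂ) ≠ 0 := inner_self_ne_zero.2 hx₀
  have hnd₀ : nd x₀ (Ψ p₀.1 p₀.2) ≠ 0 := by
    rw [← hx₀m]
    exact (nd_pr_ne hx₀).2 hself
  have hc₀ := pln_cont S h hD
  -- near the point
  have hD1 : ∀ᶠ p in 𝓝 p₀, b + p.1 • ν + p.2 • a ∉ D := hDo.mem_nhds hD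
  have hU : ∀ᶠ p in 𝓝 p₀, b + p.1 • ν + p.2 • a ∉ D ∧ nd x₀ (Ψ p.1 p.2) ≠ 0 := hD1.and (((nd_cont x₀).continuousAt.comp hc₀).eventually_ne hnd₀)
  have hcont : ∀ᶠ p in 𝓝 p₀, ContinuousAt (fun p : ℂ × ℂ => nv x₀ (Ψ p.1 p.2)) p := by
    filter_upwards [hU] with p hp
    exact ContinuousAt.comp (g := nv x₀) (f := fun p : ℂ × ℂ => Ψ p.1 p.2) (nv_continuousAt hp.2) (pln_cont S h hp.1)
  obtain ⟨G, hG, hG0, hGe⟩ := h.lift p₀.1 p₀.2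
  have hG' : AnalyticAt ℂ G p₀ := hG
  have hGe' : ∀ᶠ p in 𝓝 p₀, G p ≠ 0 → Ψ p.1 p.2 = pr (G p) := hGe
  set hh : ℂ × ℂ → ℂ := fun p => (inner ℂ x₀ (G p) : ℂ) with hhd
  have hha : ∀ p, AnalyticAt ℂ G p → AnalyticAt ℂ hh p := fun p hp => ((innerSL ℂ x₀).analyticAt _).comp hp
  have hhne : ¬ ∀ᶠ p in 𝓝 p₀, hh p = 0 := by
    intro hcon
    have h1 := PlH_line S hD hG hG0
    have h2 : ∀ᶠ z in 𝓝[≠] p₀.2, hh (p₀.1, z) = 0 ∧ nd x₀ (Ψ p₀.1 z) ≠ 0 ∧ (G (p₀.1, z) ≠ 0 → Ψ p₀.1 z = pr (G (p₀.1, z))) := by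
      have h3 : Tendsto (fun z : ℂ => ((p₀.1, z) : ℂ × ℂ)) (𝓝 p₀.2) (𝓝 p₀) := (by fun_prop : Continuous fun z : ℂ => ((p₀.1, z) : ℂ × ℂ)).tendsto p₀.2
      refine Filter.Eventually.filter_mono nhdsWithin_le_nhds ?_
      filter_upwards [h3.eventually hcon, h3.eventually hU, h3.eventually hGe'] with z e1 e2 e3
      exact ⟨e1, e2.2, e3⟩
    obtain ⟨z, ⟨e1, -⟩, e2, e3, e4⟩ := (h1.and h2).exists
    rw [e4 e1] at e3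
    exact (nd_pr_ne e1).1 e3 e2
  -- where `hh` is not `0`
  have hval : ∀ᶠ p in 𝓝 p₀, hh p ≠ 0 → nv x₀ (Ψ p.1 p.2) = (hh p)⁻¹ • G p := by
    filter_upwards [hGe'] with p hp hne
    have h1 : G p ≠ 0 := by
      intro h0
      apply hne
      rw [hhd]
      show (inner ℂ x₀ (G p) : ℂ) = 0
      rw [h0, inner_zero_right]
    rw [hp h1]
    exact nv_pr hne
  have hf : ∀ᶠ p in 𝓝 p₀, hh p ≠ 0 → AnalyticAt ℂ (fun p : ℂ × ℂ => nv x₀ (Ψ p.1 p.2)) p := by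
    filter_upwards [hval.eventually_nhds, hG'.eventually_analyticAt] with p h1 h2 hne
    have h3 : AnalyticAt ℂ (fun p => (hh p)⁻¹ • G p) p := ((hha p h2).inv hne).smul h2
    refine h3.congr ?_
    filter_upwards [h1, (hha p h2).continuousAt.eventually_ne hne] with q h4 h5
    exact (h4 h5).symm
  have hM : ∀ᶠ p in 𝓝 p₀, hh p ≠ 0 → ‖nv x₀ (Ψ p.1 p.2)‖ ≤ ‖nv x₀ (Ψ p₀.1 p₀.2)‖ + 1 := by
    have h1 : ∀ᶠ p in 𝓝 p₀, ‖nv x₀ (Ψ p.1 p.2)‖ < ‖nv x₀ (Ψ p₀.1 p₀.2)‖ + 1 := hcont.self_of_nhds.norm.eventually (gt_mem_nhds (by linarith))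
    filter_upwards [h1] with p hp _
    exact hp.le
  obtain ⟨φ, hφ, hφe⟩ := riemann_ext (hha p₀ hG') hhne hf hM
  -- the extension is the vector itself
  have hdense : ∀ᶠ p in 𝓝 p₀, ∃ᶠ q in 𝓝 p, hh q ≠ 0 := by
    obtain ⟨ε, hε, hb⟩ := Metric.eventually_nhds_iff_ball.1 hG'.eventually_analyticAt
    filter_upwards [ball_mem_nhds p₀ hε] with p hp hcon
    have hcon' : ∀ᶠ q in 𝓝 p, hh q = 0 := by
      filter_upwards [hcon] with q hq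
      by_contra h0
      exact hq h0
    have h1 : AnalyticOnNhd ℂ hh (ball p₀ ε) := fun q hq => hha q (hb q hq)
    have h2 := h1.eqOn_zero_of_preconnected_of_eventuallyEq_zero (convex_ball p₀ ε).isPreconnected hp hcon'
    exact hhne (Filter.eventually_of_mem (ball_mem_nhds p₀ hε) fun q hq => h2 hq)
  have heq : ∀ᶠ p in 𝓝 p₀, φ p = nv x₀ (Ψ p.1 p.2) := by
    filter_upwards [hdense, hcont, hφ.eventually_analyticAt, hφe.eventually_nhds] with p h1 h2 h3 h4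
    by_contra hne
    have h5 : ∀ᶠ q in 𝓝 p, φ q ≠ nv x₀ (Ψ q.1 q.2) := by
      have h6 : ContinuousAt (fun q : ℂ × ℂ => φ q - nv x₀ (Ψ q.1 q.2)) p := h3.continuousAt.sub h2
      filter_upwards [h6.eventually_ne (sub_ne_zero.2 hne)] with q hq
      exact sub_ne_zero.1 hq
    obtain ⟨q, h6, h7, h8⟩ := (h1.and_eventually (h4.and h5)).exists
    exact h8 (h7 h6)
  refine ⟨φ, hφ, ?_⟩
  filter_upwards [heq, hU] with p h1 h2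
  obtain ⟨x, hxX, hxm, hxu⟩ := hmem p
  have hx : x ≠ 0 := ne_zero hX hxX
  have hin : (inner ℂ x₀ x : ℂ) ≠ 0 := by
    have h3 := h2.2
    rw [← hxm] at h3
    exact (nd_pr_ne hx).1 h3
  have h3 : pr (φ p) = pr x := by
    rw [h1, ← hxm]
    exact pr_nv hin
  have h4 : φ p ≠ 0 := by
    rw [h1, ← hxm, nv_pr hin]
    exact smul_ne_zero (inv_ne_zero hin) hx
  obtain ⟨h5, h6⟩ := mem_of_pr hX S.geo.tor hxX hxu h4 h3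
  exact ⟨h5, by rw [h3, hxm], h6⟩

end Pool.Agent.G4.E
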