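import Pool.Agent.G4.E.Dn
import Pool.Agent.G4.E.Ext
import Pool.Agent.G4.E.PlH

/-!
# G4 E Pl: a direction in the plane of `ν` and `a`

`cl_plane`: `BC` for `a`, `ν`, at every point, `ν` and `a` linearly independent, `a'` in their span; if every curve over a line of direction `a'` is the restriction of a member of `SS` then the same holds for `a`.
-/

set_option autoImplicit false

open Topology Filter Metric

namespace Pool.Agent.G4.E

open Pool.Agent.H36.BP (EN fs wd)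
open Pool.Agent.H14.PP (IsCone CurveAt Tan)
open Pool.Agent.H62.EF (MN pr)
open Pool.Agent.AD (Vd Chart Charts IsGerm)
open Pool.Agent.TG
open Pool.Agent.G3.A (Ba Hc Frm)
open Pool.Agent.G3.E (BC Hol GD)
open Pool.Agent.G4.A (DA)

variable {N k : ℕ} {X : Set (EN N)} {Λ : AddSubgroup (Vd (k + 1))} {u : EN N → Vd (k + 1)} {D B Bad : Set (Vd (k + 1))} {a ν : Vd (k + 1)}
  {Γ : AddSubgroup (Vd (k + 1))} {J r : ℕ} {W : Fin r → Vd (k + 1) →L[ℂ] ℂ} {α : Fin J → VForm X Λ u} {c₀ C₀ ρ δ : ℝ}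

theorem cl_plane (S : DA X Λ u D B Bad a Γ W α c₀ C₀ ρ δ) (hiso : ∀ a : Vd (k + 1), a ≠ 0 → ∀ y : Vd (k + 1), ∀ᶠ z in 𝓝[≠] (0 : ℂ), y + z • a ∉ D)
    (hBC : ∀ b, BC X Λ u a ν b) (hind : ∀ s t : ℂ, s • ν + t • a = 0 → s = 0 ∧ t = 0) {SS : Set (Vd (k + 1) → MN N)} (hSf : SS.Finite) (hSh : ∀ Φ ∈ SS, Hol X Λ u D Φ)
    {s₀ t₀ : ℂ} (hst : s₀ • ν + t₀ • a ≠ 0) (hcl : Cl X Λ u D SS (s₀ • ν + t₀ • a)) : Cl X Λ u D SS a := by
  intro b f hf
  have hD := S.geo.D_closed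
  obtain ⟨Ψ, hΨ0, hΨ⟩ := ext_plane S hBC b hf
  have hH := pln_hol S hΨ
  -- the plane
  have hcont : Continuous fun p : ℂ × ℂ => b + p.1 • ν + p.2 • a := by fun_prop
  have hhan : ∀ p : ℂ × ℂ, AnalyticAt ℂ (fun p : ℂ × ℂ => b + p.1 • ν + p.2 • a) p := fun p =>
    (analyticAt_const.add (analyticAt_fst.smul analyticAt_const)).add (analyticAt_snd.smul analyticAt_const)
  have hline : ∀ (y e : ℂ × ℂ) (t : ℂ), b + (y + t • e).1 • ν + (y + t • e).2 • a = (b + y.1 • ν + y.2 • a) + t • (e.1 • ν + e.2 • a) := by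
    intro y e t
    simp only [Prod.fst_add, Prod.snd_add, Prod.smul_fst, Prod.smul_snd, smul_eq_mul, add_smul, mul_smul, smul_add]
    abel
  have hD' : IsClosed {p : ℂ × ℂ | b + p.1 • ν + p.2 • a ∈ D} := hD.preimage hcont
  have hne0 : ∀ e : ℂ × ℂ, e ≠ 0 → e.1 • ν + e.2 • a ≠ 0 := by
    intro e he h0
    obtain ⟨h1, h2⟩ := hind _ _ h0
    exact he (Prod.ext h1 h2)
  have hiso' : ∀ y e : ℂ × ℂ, e ≠ 0 → ∀ t : ℂ, ∀ᶠ w in 𝓝[≠] t, y + w • e ∉ {p : ℂ × ℂ | b + p.1 • ν + p.2 • a ∈ D} := by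
    intro y e he t
    filter_upwards [iso_shift (hiso _ (hne0 e he)) (b + y.1 • ν + y.2 • a) t] with w hw
    show ¬ (b + (y + w • e).1 • ν + (y + w • e).2 • a ∈ D)
    rwa [hline]
  have hne : ({p : ℂ × ℂ | b + p.1 • ν + p.2 • a ∈ D}ᶜ : Set (ℂ × ℂ)).Nonempty := by
    obtain ⟨w, hw⟩ := (hiso' 0 (0, 1) (by simp) 0).exists
    exact ⟨_, hw⟩
  have hM : MerY {p : ℂ × ℂ | b + p.1 • ν + p.2 • a ∈ D} (fun p : ℂ × ℂ => Ψ p.1 p.2) := by
    rintro ⟨ζ, z⟩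
    obtain ⟨G, h1, h2, h3⟩ := hΨ.lift ζ z
    refine ⟨G, h1, ?_, h3.mono fun p hp _ => hp⟩
    have h4 : ∃ᶠ w in 𝓝 z, G (ζ, w) ≠ 0 := fun h => h2 (h.mono fun w hw => not_not.1 hw)
    have h5 : Tendsto (fun w : ℂ => (ζ, w)) (𝓝 z) (𝓝 (ζ, z)) := by
      have h6 : Continuous fun w : ℂ => (ζ, w) := by fun_prop
      exact h6.tendsto z
    exact h5.frequently h4
  obtain ⟨Φ', hΦ', he⟩ := fin_ident (X := X) (Λ := Λ) (u := u) (D' := {p : ℂ × ℂ | b + p.1 • ν + p.2 • a ∈ D}) (h := fun p : ℂ × ℂ => b + p.1 • ν + p.2 • a) S.geo.cone hD'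
    (compl_conn' hD' hiso') hne hH (S := (fun Φ : Vd (k + 1) → MN N => fun p : ℂ × ℂ => Φ (b + p.1 • ν + p.2 • a)) '' SS) (hSf.image _) (by
      rintro _ ⟨Φ, hΦ, rfl⟩
      intro p hp
      obtain ⟨F, hF, hFe⟩ := hSh Φ hΦ _ hp
      refine ⟨fun q => F (b + q.1 • ν + q.2 • a), AnalyticAt.comp_of_eq (g := F) hF (hhan p) rfl, ?_⟩
      exact hcont.continuousAt.eventually hFe) (by
      intro y hy
      have he0 : ((s₀, t₀) : ℂ × ℂ) ≠ 0 := by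
        intro h0
        apply hst
        have h1 := congrArg Prod.fst h0
        have h2 := congrArg Prod.snd h0
        simp only [Prod.fst_zero, Prod.snd_zero] at h1 h2
        rw [h1, h2, zero_smul, zero_smul, add_zero]
      obtain ⟨g, hg, hge⟩ := line_ext S.geo.cone S.geo.charts S.geo.tor S.geo.lat hD' (h := fun p : ℂ × ℂ => b + p.1 • ν + p.2 • a) hhan hH hM (y := y) (e := ((s₀, t₀) : ℂ × ℂ))
        (fun t => hiso' y _ he0 t) (b := b + y.1 • ν + y.2 • a) (a' := s₀ • ν + t₀ • a) (fun t => hline y _ t)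
      obtain ⟨Φ, hΦ, hΦg⟩ := hcl _ g hg
      refine ⟨_, ⟨Φ, hΦ, rfl⟩, ?_⟩
      have h1 := hge 0 (by rw [zero_smul, add_zero]; exact hy)
      have h2 := hΦg 0 (by rw [zero_smul, add_zero]; exact hy)
      rw [zero_smul, add_zero] at h1 h2
      exact h1.symm.trans h2)
  obtain ⟨Φ, hΦ, rfl⟩ := hΦ'
  refine ⟨Φ, hΦ, fun z hz => ?_⟩
  have h1 := he ((0 : ℂ), z) (by
    show ¬ (b + (0 : ℂ) • ν + z • a ∈ D)
    rwa [zero_smul, add_zero])
  simp only [zero_smul, add_zero] at h1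
  rw [← h1, hΨ0]

end Pool.Agent.G4.E
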